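import Pool.Agent.H97.EM.Inj.Cnd

/-! Finite injury construction: a correct stack accepts every true formula of its top tuple. -/

namespace Pool.Agent.H97.EM.Inj

open Pool.Agent.H97.EM Classical

variable {d : Dat} {N : Str} {a : ℕ → ℕ}

private theorem exs_self (M : Str) (u : List ℕ) (hu : u ≠ []) (θ : Fml) (hθ : Ev M θ u) :
    Ev M (exs u.length (u.length - u.length) θ) u := by
  rw [Nat.sub_self, ev_exs M u hu]
  exact ⟨[], rfl, by rwa [List.append_nil]⟩

/-- The tuples of `N`: for `j + 1 < P.length` the tuple `A_j = (P.getD (j+1)).1.2.1` (indices)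
realises the type of the tuple of level `j` (`TCand.te_low`), `A_j` is a prefix of `A_(j+1)`
(`TCand.pre`) and of the tuple of `TCfg.real` for the top level. So if `θ` holds at the top tuple
then `∃ .. θ` holds in `N` at all `A_j`, hence in `B` at the tuple of level `j`. -/
theorem chk (h : Hyp d N a) {P : List Cfg} (hne : P ≠ [])
    (tr : ∀ j < P.length, TCfg d N a j (P.getD j dft))
    (tc : ∀ j, j + 1 < P.length → TCand d N a j (P.getD j dft) (P.getD (j + 1) dft).1)
    (θ : Fml) (hθ : Ev d.B θ (P.getD (P.length - 1) dft).2) : ∀ j < P.length,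
      Ev d.B (exs (P.getD j dft).2.length
        ((P.getD (P.length - 1) dft).2.length - (P.getD j dft).2.length) θ)
        (P.getD j dft).2 := by
  have hL : 0 < P.length := List.length_pos_iff.2 hne
  obtain ⟨t, ht⟩ : ∃ t, P.length - 1 = t := ⟨_, rfl⟩
  rw [ht] at hθ ⊢
  obtain ⟨W, hW1, hW2⟩ := TCfg.real h (tr t (by omega))
  obtain ⟨Z, hZ⟩ : ∃ Z, Z = (P.getD t dft).1.2.1 ++ W ++ [t] := ⟨_, rfl⟩
  rw [← hZ] at hW1 hW2
  have hNθ : Ev N θ (Z.map a) := (hW2.2.2 θ).2 hθ
  -- the tuples of the lower levels are prefixes of `Z`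
  have hpre : ∀ i j, j + 1 + i = t → (P.getD (j + 1) dft).1.2.1 <+: Z := by
    intro i
    induction i with
    | zero =>
      intro j hj
      rw [Nat.add_zero] at hj
      rw [hj, hZ, List.append_assoc]
      exact List.prefix_append _ _
    | succ i ih =>
      intro j hj
      have h1 := ih (j + 1) (by omega)
      have h2 := (tc (j + 1) (by omega)).pre
      have h3 : (P.getD (j + 1) dft).1.2.1 <+: (P.getD (j + 1 + 1) dft).1.2.1 := by
        conv_lhs => rw [← h2]
        exact List.take_prefix _ _
      exact h3.trans h1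
  intro j hj
  have hU : (P.getD j dft).2 ≠ [] := Shp.ne (tr j hj).shp
  by_cases hjt : j = t
  · subst hjt
    exact exs_self d.B _ hU θ hθ
  · obtain ⟨R, hR⟩ := hpre (t - (j + 1)) j (by omega)
    have h1 := (tc j (by omega)).te_low hU
    have h2 := (tc j (by omega)).l2
    refine (h1.2.2 _).1 ?_
    have h3 : (P.getD j dft).2.length = ((P.getD (j + 1) dft).1.2.1.map a).length := by
      rw [List.length_map, h2]
    rw [h3, ev_exs N _ h1.1]
    refine ⟨R.map a, ?_, ?_⟩
    · have h4 := congrArg List.length hR
      rw [List.length_append] at h4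
      rw [List.length_map, List.length_map]
      omega
    · rw [← List.map_append, hR]
      exact hNθ

end Pool.Agent.H97.EM.Inj
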