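import Pool.Agent.H97.EM.Inj.Def
import Pool.Agent.H97.EM.Prim
import Pool.Agent.H97.EM.Find

/-! Finite injury construction: tests and candidates are computable. -/

namespace Pool.Agent.H97.EM.Inj

open Pool.Agent.H97.EM Classical

variable {d : Dat}

private theorem cp_comp {α β : Type*} [Primcodable α] [Primcodable β] {p : β → Prop}
    (hp : ComputablePred p) {f : α → β} (hf : Computable f) : ComputablePred fun a => p (f a) := by
  obtain ⟨g, hg, hg'⟩ := comp_decide hp
  exact compPred_of (hg.comp hf) fun a => hg' (f a)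

private theorem cp_and {α : Type*} [Primcodable α] {p q : α → Prop} (hp : ComputablePred p)
    (hq : ComputablePred q) : ComputablePred fun a => p a ∧ q a := by
  obtain ⟨f, hf, hf'⟩ := comp_decide hp
  obtain ⟨g, hg, hg'⟩ := comp_decide hq
  refine compPred_of (f := fun a => f a && g a) (Primrec.and.to_comp.comp hf hg) fun a => ?_
  rw [Bool.and_eq_true, hf', hg']

private theorem cp_iff {α : Type*} [Primcodable α] {p q : α → Prop} (hp : ComputablePred p)
    (hq : ComputablePred q) : ComputablePred fun a => (p a ↔ q a) := by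
  obtain ⟨f, hf, hf'⟩ := comp_decide hp
  obtain ⟨g, hg, hg'⟩ := comp_decide hq
  refine compPred_of (f := fun a => f a == g a) (Primrec.beq.to_comp.comp hf hg) fun a => ?_
  rw [beq_iff_eq, Bool.eq_iff_iff, hf', hg']

private theorem cp_eq {α β : Type*} [Primcodable α] [Primcodable β] {f g : α → β}
    (hf : Computable f) (hg : Computable g) : ComputablePred fun a => f a = g a := by
  refine compPred_of (f := fun a => Encodable.encode (f a) == Encodable.encode (g a))
    (Primrec.beq.to_comp.comp (Computable.encode.comp hf) (Computable.encode.comp hg)) fun a => ?_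
  rw [beq_iff_eq]
  exact ⟨fun h => Encodable.encode_injective h, fun h => by rw [h]⟩

/-- Truth in `B` of a computable formula at a computable list. -/
theorem ev_comp {B : Str} (hB : CompStr B) {α : Type*} [Primcodable α] {f : α → Fml}
    {u : α → List ℕ} (hf : Computable f) (hu : Computable u) :
    ComputablePred fun a => Ev B (f a) (u a) :=
  cp_comp (p := fun p : Fml × List ℕ => Ev B p.1 p.2) hB (hf.pair hu)

private theorem idx_pr : Primrec₂ idx := by
  have h : Primrec fun p : ℕ × Cand => p.2.1 ++ p.2.2.1 ++ [p.1 + 1] :=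
    Primrec.list_append.comp
      (Primrec.list_append.comp (Primrec.fst.comp Primrec.snd)
        (Primrec.fst.comp (Primrec.snd.comp Primrec.snd)))
      (Primrec.list_cons.comp (Primrec.succ.comp Primrec.fst) (Primrec.const []))
  exact h

theorem idx_comp : Computable₂ idx :=
  idx_pr.to_comp

private theorem bd_pr : Primrec₂ bd := by
  have h1 : Primrec₂ fun (_ : ℕ × Cand) (q : ℕ × ℕ) => max q.1 q.2 :=
    Primrec.nat_max.comp (Primrec.fst.comp Primrec.snd) (Primrec.snd.comp Primrec.snd)
  have h2 : Primrec fun p : ℕ × Cand => (idx p.1 p.2).foldr max 0 :=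
    Primrec.list_foldr (idx_pr.comp Primrec.fst Primrec.snd) (Primrec.const 0) h1
  have h3 : Primrec fun p : ℕ × Cand => (idx p.1 p.2).foldr max 0 + 1 := Primrec.succ.comp h2
  exact h3

theorem bd_comp : Computable₂ bd :=
  bd_pr.to_comp

theorem agr_comp {B : Str} (hB : CompStr B) :
    ComputablePred fun q : ℕ × List ℕ × List ℕ => Agr B q.1 q.2.1 q.2.2 := by
  have h1 : ComputablePred fun r : (ℕ × List ℕ × List ℕ) × ℕ =>
      (Ev B (Denumerable.ofNat Fml r.2) r.1.2.1 ↔ Ev B (Denumerable.ofNat Fml r.2) r.1.2.2) :=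
    cp_iff (ev_comp hB ((Computable.ofNat Fml).comp Computable.snd)
      (Computable.fst.comp (Computable.snd.comp Computable.fst)))
      (ev_comp hB ((Computable.ofNat Fml).comp Computable.snd)
      (Computable.snd.comp (Computable.snd.comp Computable.fst)))
  obtain ⟨f, hf, hf'⟩ := comp_decide h1
  have h2 : Computable₂ fun (q : ℕ × List ℕ × List ℕ) (k : ℕ) => f (q, k) := hf
  have h3 : Computable fun q : ℕ × List ℕ × List ℕ => q.1 + 1 :=
    Computable.succ.comp Computable.fst
  refine compPred_of (ball_comp h2 h3) fun q => ?_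
  rw [List.all_eq_true]
  unfold Agr
  constructor
  · intro h k hk
    exact (hf' (q, k)).1 (h k (List.mem_range.2 hk))
  · intro h k hk
    exact (hf' (q, k)).2 (h k (List.mem_range.1 hk))

private theorem tk_comp {α : Type*} [Primcodable α] {f : α → ℕ} {u : α → List ℕ}
    (hf : Computable f) (hu : Computable u) : Computable fun a => (u a).take (f a) :=
  (Primrec.list_take (α := ℕ)).to_comp.comp hf hu

private theorem last_comp : Computable fun u : List ℕ => u.getLast? := by
  have h : Primrec fun u : List ℕ => u.reverse.head? :=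
    Primrec.list_head?.comp Primrec.list_reverse
  exact (h.of_eq fun u => List.head?_reverse).to_comp

private theorem exs_comp {α : Type*} [Primcodable α] {f g : α → ℕ} {h : α → Fml}
    (hf : Computable f) (hg : Computable g) (hh : Computable h) :
    Computable fun a => exs (f a) (g a) (h a) := by
  have h1 : Computable fun a => (f a, g a, h a) := hf.pair (hg.pair hh)
  exact Computable.comp (g := fun a => (f a, g a, h a)) exs_primrec.to_comp h1

theorem test_comp (hB : CompStr d.B) (hg : Computable₂ d.g) :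
    ComputablePred fun q : (ℕ × ℕ × List Bool × ℕ) × Cfg × Cand =>
      Test d q.1.1 q.1.2.1 q.1.2.2.1 q.1.2.2.2 q.2.1 q.2.2 := by
  have hs : Computable fun q : (ℕ × ℕ × List Bool × ℕ) × Cfg × Cand => q.1.1 :=
    Computable.fst.comp Computable.fst
  have hl : Computable fun q : (ℕ × ℕ × List Bool × ℕ) × Cfg × Cand => q.1.2.1 :=
    Computable.fst.comp (Computable.snd.comp Computable.fst)
  have hσ : Computable fun q : (ℕ × ℕ × List Bool × ℕ) × Cfg × Cand => q.1.2.2.1 :=
    Computable.fst.comp (Computable.snd.comp (Computable.snd.comp Computable.fst))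
  have hn : Computable fun q : (ℕ × ℕ × List Bool × ℕ) × Cfg × Cand => q.1.2.2.2 :=
    Computable.snd.comp (Computable.snd.comp (Computable.snd.comp Computable.fst))
  have hc : Computable fun q : (ℕ × ℕ × List Bool × ℕ) × Cfg × Cand => q.2.1 :=
    Computable.fst.comp Computable.snd
  have hx : Computable fun q : (ℕ × ℕ × List Bool × ℕ) × Cfg × Cand => q.2.2 :=
    Computable.snd.comp Computable.snd
  have hc2 : Computable fun q : (ℕ × ℕ × List Bool × ℕ) × Cfg × Cand => q.2.1.2 :=
    Computable.snd.comp hc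
  have hcl : Computable fun q : (ℕ × ℕ × List Bool × ℕ) × Cfg × Cand => q.2.1.2.length :=
    Computable.list_length.comp hc2
  have hc3 : Computable fun q : (ℕ × ℕ × List Bool × ℕ) × Cfg × Cand => q.2.1.1.2.1 :=
    Computable.fst.comp (Computable.snd.comp (Computable.fst.comp hc))
  have hx1 : Computable fun q : (ℕ × ℕ × List Bool × ℕ) × Cfg × Cand => q.2.2.1 :=
    Computable.fst.comp hx
  have hx2 : Computable fun q : (ℕ × ℕ × List Bool × ℕ) × Cfg × Cand => q.2.2.2.1 :=
    Computable.fst.comp (Computable.snd.comp hx)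
  have hx3 : Computable fun q : (ℕ × ℕ × List Bool × ℕ) × Cfg × Cand => q.2.2.2.2 :=
    Computable.snd.comp (Computable.snd.comp hx)
  have hxt : Computable fun q : (ℕ × ℕ × List Bool × ℕ) × Cfg × Cand =>
      q.2.2.2.2.take q.2.1.2.length := tk_comp hcl hx3
  have hidx : Computable fun q : (ℕ × ℕ × List Bool × ℕ) × Cfg × Cand => idx q.1.2.1 q.2.2 :=
    idx_comp.comp hl hx
  have hbd : Computable fun q : (ℕ × ℕ × List Bool × ℕ) × Cfg × Cand => bd q.1.2.1 q.2.2 :=
    bd_comp.comp hl hx
  have hgg : Computable fun q : (ℕ × ℕ × List Bool × ℕ) × Cfg × Cand =>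
      d.g (bd q.1.2.1 q.2.2) q.1.1 := hg.comp hbd hs
  have hpk : Computable fun q : (ℕ × ℕ × List Bool × ℕ) × Cfg × Cand =>
      pick (d.g (bd q.1.2.1 q.2.2) q.1.1) (idx q.1.2.1 q.2.2) :=
    pick_primrec.to_comp.comp hgg hidx
  have hbb : Computable fun q : (ℕ × ℕ × List Bool × ℕ) × Cfg × Cand => d.bb ++ q.2.2.2.2 :=
    Computable.list_append.comp (Computable.const d.bb) hx3
  have hsub : Computable fun q : (ℕ × ℕ × List Bool × ℕ) × Cfg × Cand =>
      q.1.2.2.2 - q.2.1.2.length := Primrec.nat_sub.to_comp.comp hn hcl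
  have hcs : Computable fun q : (ℕ × ℕ × List Bool × ℕ) × Cfg × Cand => cs q.1.2.2.1 :=
    cs_primrec.to_comp.comp hσ
  have hexs : Computable fun q : (ℕ × ℕ × List Bool × ℕ) × Cfg × Cand =>
      exs q.2.1.2.length (q.1.2.2.2 - q.2.1.2.length) (cs q.1.2.2.1) :=
    exs_comp hcl hsub hcs
  have t1 : ComputablePred fun q : (ℕ × ℕ × List Bool × ℕ) × Cfg × Cand =>
      q.2.2.1.length = d.bb.length :=
    cp_eq (Computable.list_length.comp hx1) (Computable.const d.bb.length)
  have t2 : ComputablePred fun q : (ℕ × ℕ × List Bool × ℕ) × Cfg × Cand =>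
      q.2.2.2.1.length = q.2.1.2.length := cp_eq (Computable.list_length.comp hx2) hcl
  have t3 : ComputablePred fun q : (ℕ × ℕ × List Bool × ℕ) × Cfg × Cand =>
      q.2.2.2.2.length = q.2.1.2.length + 1 :=
    cp_eq (Computable.list_length.comp hx3) (Computable.succ.comp hcl)
  have t4 : ComputablePred fun q : (ℕ × ℕ × List Bool × ℕ) × Cfg × Cand =>
      q.2.2.2.1.take q.2.1.1.2.1.length = q.2.1.1.2.1 :=
    cp_eq (tk_comp (Computable.list_length.comp hc3) hx2) hc3
  have t5 : ComputablePred fun q : (ℕ × ℕ × List Bool × ℕ) × Cfg × Cand =>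
      q.2.2.2.1.getLast? = some q.1.2.1 :=
    cp_eq (last_comp.comp hx2) (Computable.option_some.comp hl)
  have t6 : ComputablePred fun q : (ℕ × ℕ × List Bool × ℕ) × Cfg × Cand =>
      Agr d.B q.1.1 (q.2.2.2.2.take q.2.1.2.length) q.2.1.2 :=
    cp_comp (agr_comp hB) (hs.pair (hxt.pair hc2))
  have t7 : ComputablePred fun q : (ℕ × ℕ × List Bool × ℕ) × Cfg × Cand =>
      (d.g (bd q.1.2.1 q.2.2) q.1.1).length = bd q.1.2.1 q.2.2 :=
    cp_eq (Computable.list_length.comp hgg) hbd
  have t8 : ComputablePred fun q : (ℕ × ℕ × List Bool × ℕ) × Cfg × Cand =>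
      Agr d.B q.1.1 (pick (d.g (bd q.1.2.1 q.2.2) q.1.1) (idx q.1.2.1 q.2.2))
        (d.bb ++ q.2.2.2.2) :=
    cp_comp (agr_comp hB) (hs.pair (hpk.pair hbb))
  have t9 : ComputablePred fun q : (ℕ × ℕ × List Bool × ℕ) × Cfg × Cand =>
      Ev d.B (exs q.2.1.2.length (q.1.2.2.2 - q.2.1.2.length) (cs q.1.2.2.1))
        (q.2.2.2.2.take q.2.1.2.length) :=
    ev_comp hB hexs hxt
  exact cp_and (cp_and t1 (cp_and t2 t3)) (cp_and (cp_and t4 t5) (cp_and t6
    (cp_and (cp_and t7 t8) t9)))

/-- `bfind_comp`. -/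
theorem cnd_comp (hB : CompStr d.B) (hg : Computable₂ d.g) :
    Computable fun q : (ℕ × ℕ × List Bool × ℕ) × Cfg =>
      cnd d q.1.1 q.1.2.1 q.1.2.2.1 q.1.2.2.2 q.2 := by
  obtain ⟨f, hf, hf'⟩ := comp_decide (test_comp hB hg)
  have h1 : Computable₂ fun (q : (ℕ × ℕ × List Bool × ℕ) × Cfg) (k : ℕ) =>
      f (q.1, q.2, Denumerable.ofNat Cand k) := by
    have h2 : Computable fun r : ((ℕ × ℕ × List Bool × ℕ) × Cfg) × ℕ =>
        (r.1.1, r.1.2, Denumerable.ofNat Cand r.2) :=
      (Computable.fst.comp Computable.fst).pair ((Computable.snd.comp Computable.fst).pair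
        ((Computable.ofNat Cand).comp Computable.snd))
    exact hf.comp h2
  have h3 : Computable fun q : (ℕ × ℕ × List Bool × ℕ) × Cfg => q.1.1 + 1 :=
    Computable.succ.comp (Computable.fst.comp Computable.fst)
  refine (bfind_comp h1 h3).of_eq fun q => ?_
  unfold cnd
  congr 1
  funext k
  rw [Bool.eq_iff_iff, hf', decide_eq_true_iff]

end Pool.Agent.H97.EM.Inj
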