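import Pool.Agent.H97.EM.Inj.Cvg

/-! Finite injury construction: the invariants. -/

namespace Pool.Agent.H97.EM.Inj

open Pool.Agent.H97.EM Classical

variable {d : Dat}

private theorem ivr_ext {v w : List ℕ} {i : ℕ} (hi : i < v.length) : ext (v ++ w) i = ext v i := by
  unfold ext
  rw [List.getD_append _ _ _ _ hi, List.getD_eq_getElem _ _ hi, List.getD_eq_getElem _ _ hi]

private theorem ivr_append {B : Str} {σ : List Bool} {v w : List ℕ} (h : σ.length < v.length) :
    Ev B (cs σ) (v ++ w) ↔ Ev B (cs σ) v := by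
  refine sat_congr B (cs σ) _ _ fun i hi => ivr_ext ?_
  have h1 := fv_cs σ i hi
  omega

private theorem ivr_exs0 (B : Str) (v : List ℕ) (m : ℕ) (φ : Fml) :
    Ev B (exs m 0 φ) v ↔ Ev B φ v := Iff.rfl

theorem wit_spec {σ : List Bool} {n m : ℕ} {x : Cand} (hm : 0 < m) (hx : m ≤ x.2.2.length)
    (h : Ev d.B (exs m (n - m) (cs σ)) (x.2.2.take m)) :
    (wit d σ n m x).length = n - m ∧ Ev d.B (cs σ) (x.2.2.take m ++ wit d σ n m x) := by
  have hl : (x.2.2.take m).length = m := by
    rw [List.length_take]
    omega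
  have h0 : x.2.2.take m ≠ [] := by
    intro h0
    rw [h0, List.length_nil] at hl
    omega
  have h1 := ev_exs d.B _ h0 (n - m) (cs σ)
  rw [hl] at h1
  obtain ⟨w, hw1, hw2⟩ := h1.1 h
  have hex : ∃ k, (Denumerable.ofNat (List ℕ) k).length = n - m ∧
      Ev d.B (cs σ) (x.2.2.take m ++ Denumerable.ofNat (List ℕ) k) :=
    ⟨Encodable.encode w, by rw [Denumerable.ofNat_encode]; exact ⟨hw1, hw2⟩⟩
  unfold wit
  rw [dif_pos hex]
  exact Nat.find_spec hex

/-- More variables do no harm (`σ` speaks only about variables below `n`). -/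
theorem Cns.succ {σ : List Bool} {n : ℕ} {c : Cfg} (hc : c.2 ≠ []) (hn : c.2.length ≤ n)
    (hσ : σ.length < n) (h : Cns d σ n c) : Cns d σ (n + 1) c := by
  unfold Cns at h ⊢
  rw [ev_exs _ _ hc] at h ⊢
  obtain ⟨w, hw1, hw2⟩ := h
  refine ⟨w ++ [0], ?_, ?_⟩
  · rw [List.length_append, hw1, List.length_singleton]
    omega
  · rw [← List.append_assoc]
    refine (ivr_append ?_).2 hw2
    rw [List.length_append, hw1]
    omega

theorem inv_init : Inv d ([c0 d], [], 1) := by
  refine ⟨by simp, by simp, ?_, ?_, ?_⟩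
  · intro c hc
    rw [List.mem_singleton.1 hc]
    exact ⟨rfl, [], rfl⟩
  · intro c hc
    rw [List.mem_singleton.1 hc]
    exact le_refl 1
  · intro c hc
    rw [List.mem_singleton.1 hc]
    exact sat_top d.B _

/-- After a successful test the new configuration has the right shape, length `n + 1` and its
tuple satisfies `cs σ`. -/
theorem newc_spec {s l n : ℕ} {σ : List Bool} {c : Cfg} {x : Cand} (hc : c.2 ≠ [])
    (hn : c.2.length ≤ n) (hσ : σ.length < n) (h : Test d s l σ n c x) :
    Shp (newc d σ n c.2.length x) ∧ (newc d σ n c.2.length x).2.length = n + 1 ∧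
      Ev d.B (cs σ) (newc d σ n c.2.length x).2 := by
  have hm : 0 < c.2.length := List.length_pos_iff.2 hc
  obtain ⟨⟨-, h1, h2⟩, -, -, -, h3⟩ := h
  obtain ⟨h4, h5⟩ := wit_spec hm (by omega) h3
  have hl : (x.2.2.take c.2.length).length = c.2.length := by
    rw [List.length_take]
    omega
  have hlw : (x.2.2.take c.2.length ++ wit d σ n c.2.length x).length = n := by
    rw [List.length_append, hl, h4]
    omega
  refine ⟨⟨?_, wit d σ n c.2.length x, ?_⟩, ?_, ?_⟩
  · show x.2.2.length = x.2.1.length + 1
    omega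
  · show x.2.2.take c.2.length ++ wit d σ n c.2.length x ++ x.2.2.drop c.2.length = _
    rw [← h1]
    rfl
  · show (x.2.2.take c.2.length ++ wit d σ n c.2.length x ++ x.2.2.drop c.2.length).length = n + 1
    rw [List.length_append, hlw, List.length_drop]
    omega
  · show Ev d.B (cs σ) (x.2.2.take c.2.length ++ wit d σ n c.2.length x ++ x.2.2.drop c.2.length)
    exact (ivr_append (by omega)).2 h5

theorem lev_lt {s : ℕ} {st : St} (h : st.1 ≠ []) : lev d s st < st.1.length := by
  have h0 : 0 < st.1.length := List.length_pos_iff.2 h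
  unfold lev
  cases hf : (List.range (st.1.length - 1)).find? fun l =>
    decide (cnd d s l st.2.1 st.2.2 (st.1.getD l dft) ≠
      some (Encodable.encode (st.1.getD (l + 1) dft).1)) with
  | none =>
    rw [Option.getD_none]
    omega
  | some l =>
    rw [Option.getD_some]
    have h1 := List.mem_range.1 (List.mem_of_find?_eq_some hf)
    omega

private theorem dec_cases (d : Dat) (stk : List Cfg) (σ : List Bool) (n : ℕ) (b : Bool) :
    (dec d stk σ n b = σ ++ [b] ∧ ∀ c ∈ stk, Cns d (σ ++ [b]) (n + 1) c) ∨
      dec d stk σ n b = σ := by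
  unfold dec
  split_ifs with h
  · left
    refine ⟨rfl, fun c hc => ?_⟩
    obtain ⟨j, hj, rfl⟩ := List.getElem_of_mem hc
    have h1 := h j hj
    rw [List.getD_eq_getElem _ _ hj] at h1
    exact h1
  · exact Or.inr rfl

theorem inv_step {s : ℕ} {st : St} (h : Inv d st) : Inv d (step d s st) := by
  have hlev := lev_lt (d := d) (s := s) h.ne
  have hsub : ∀ c ∈ st.1.take (lev d s st + 1), c ∈ st.1 := fun c hc => List.mem_of_mem_take hc
  have hcm : st.1.getD (lev d s st) dft ∈ st.1 := by
    rw [List.getD_eq_getElem _ _ hlev]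
    exact List.getElem_mem hlev
  have hne : st.1.take (lev d s st + 1) ≠ [] := by
    intro h0
    have h1 := congrArg List.length h0
    rw [List.length_take, List.length_nil] at h1
    omega
  unfold step
  cases hc : cnd d s (lev d s st) st.2.1 st.2.2 (st.1.getD (lev d s st) dft) with
  | none =>
    exact ⟨hne, h.sig, fun c hc => h.shp c (hsub c hc), fun c hc => h.le c (hsub c hc),
      fun c hc => h.cns c (hsub c hc)⟩
  | some k =>
    have hT := test_of_cnd hc
    have hc2 := (h.shp _ hcm).ne
    obtain ⟨n1, n2, n3⟩ := newc_spec hc2 (h.le _ hcm) h.sig hT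
    have hl : st.2.1.length < st.2.2 := h.sig
    have hσ : ∀ c ∈ st.1.take (lev d s st + 1) ++
        [newc d st.2.1 st.2.2 (st.1.getD (lev d s st) dft).2.length (Denumerable.ofNat Cand k)],
        Cns d st.2.1 (st.2.2 + 1) c := by
      intro c hc
      rcases List.mem_append.1 hc with h1 | h1
      · exact Cns.succ (h.shp c (hsub c h1)).ne (h.le c (hsub c h1)) hl (h.cns c (hsub c h1))
      · rw [List.mem_singleton.1 h1]
        unfold Cns
        rw [n2, Nat.sub_self, ivr_exs0]
        exact n3
    obtain ⟨b, hb⟩ : ∃ b, b = decide (Ev d.B (Denumerable.ofNat Fml st.2.1.length)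
      (newc d st.2.1 st.2.2 (st.1.getD (lev d s st) dft).2.length
        (Denumerable.ofNat Cand k)).2) := ⟨_, rfl⟩
    refine ⟨?_, ?_, ?_, ?_, ?_⟩
    · simp [push]
    · show (dec _ _ _ _ _).length < st.2.2 + 1
      rcases dec_cases d (st.1.take (lev d s st + 1) ++
        [newc d st.2.1 st.2.2 (st.1.getD (lev d s st) dft).2.length (Denumerable.ofNat Cand k)])
        st.2.1 st.2.2 _ with ⟨h1, -⟩ | h1
      · rw [h1, List.length_append, List.length_singleton]
        omega
      · rw [h1]
        omega
    · intro c hc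
      rcases List.mem_append.1 (show c ∈ st.1.take (lev d s st + 1) ++ [_] from hc) with h1 | h1
      · exact h.shp c (hsub c h1)
      · rw [List.mem_singleton.1 h1]
        exact n1
    · intro c hc
      show c.2.length ≤ st.2.2 + 1
      rcases List.mem_append.1 (show c ∈ st.1.take (lev d s st + 1) ++ [_] from hc) with h1 | h1
      · exact (h.le c (hsub c h1)).trans (Nat.le_succ _)
      · rw [List.mem_singleton.1 h1, n2]
    · intro c hc
      show Cns d (dec _ _ _ _ _) (st.2.2 + 1) c
      rcases dec_cases d (st.1.take (lev d s st + 1) ++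
        [newc d st.2.1 st.2.2 (st.1.getD (lev d s st) dft).2.length (Denumerable.ofNat Cand k)])
        st.2.1 st.2.2 _ with ⟨h1, h2⟩ | h1
      · rw [h1]
        exact h2 c hc
      · rw [h1]
        exact hσ c hc

theorem inv_run (s : ℕ) : Inv d (run d s) := by
  induction s with
  | zero => exact inv_init
  | succ s ih => exact inv_step ih

private theorem sig_step (s : ℕ) (st : St) : st.2.1 <+: (step d s st).2.1 := by
  unfold step
  cases cnd d s (lev d s st) st.2.1 st.2.2 (st.1.getD (lev d s st) dft) with
  | none => exact List.prefix_refl _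
  | some k =>
    show st.2.1 <+: dec _ _ _ _ _
    rcases dec_cases d (st.1.take (lev d s st + 1) ++
      [newc d st.2.1 st.2.2 (st.1.getD (lev d s st) dft).2.length (Denumerable.ofNat Cand k)])
      st.2.1 st.2.2 _ with ⟨h1, -⟩ | h1
    · rw [h1]
      exact List.prefix_append _ _
    · rw [h1]

/-- The decisions are never changed. -/
theorem sig_prefix {s t : ℕ} (hst : s ≤ t) : (run d s).2.1 <+: (run d t).2.1 := by
  induction t, hst using Nat.le_induction with
  | base => exact List.prefix_refl _
  | succ t _ ih => exact ih.trans (sig_step t (run d t))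

end Pool.Agent.H97.EM.Inj
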