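import Pool.Agent.H97.EM.Inj.Cmp1
import Pool.Agent.H97.EM.Inj.Ivr

/-! Finite injury construction: the run is computable. -/

namespace Pool.Agent.H97.EM.Inj

open Pool.Agent.H97.EM Classical

variable {d : Dat}

private theorem cmp_find_congr {l : List ℕ} {P Q : ℕ → Bool} (h : ∀ k, P k = Q k) :
    l.find? P = l.find? Q := by
  have : P = Q := funext h
  rw [this]

theorem lev_comp (hB : CompStr d.B) (hg : Computable₂ d.g) :
    Computable fun q : ℕ × St => lev d q.1 q.2 := by
  have hst : Computable fun x : (ℕ × St) × ℕ => x.1.2 := Computable.snd.comp Computable.fst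
  have hstk : Computable fun x : (ℕ × St) × ℕ => x.1.2.1 := Computable.fst.comp hst
  have hsig : Computable fun x : (ℕ × St) × ℕ => x.1.2.2.1 :=
    Computable.fst.comp (Computable.snd.comp hst)
  have hn : Computable fun x : (ℕ × St) × ℕ => x.1.2.2.2 :=
    Computable.snd.comp (Computable.snd.comp hst)
  have hc : Computable fun x : (ℕ × St) × ℕ => x.1.2.1.getD x.2 dft :=
    (Primrec.list_getD dft).to_comp.comp hstk Computable.snd
  have hc' : Computable fun x : (ℕ × St) × ℕ => x.1.2.1.getD (x.2 + 1) dft :=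
    (Primrec.list_getD dft).to_comp.comp hstk (Computable.succ.comp Computable.snd)
  have hp : Computable fun x : (ℕ × St) × ℕ =>
      ((x.1.1, x.2, x.1.2.2.1, x.1.2.2.2), x.1.2.1.getD x.2 dft) :=
    Computable.pair (Computable.pair (Computable.fst.comp Computable.fst)
      (Computable.pair Computable.snd (Computable.pair hsig hn))) hc
  have h1 := (cnd_comp hB hg).comp hp
  have h2 : Computable fun x : (ℕ × St) × ℕ =>
      some (Encodable.encode (x.1.2.1.getD (x.2 + 1) dft).1) :=
    Computable.option_some.comp (Computable.encode.comp (Computable.fst.comp hc'))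
  have h3 : Computable fun p : Option ℕ × Option ℕ => !decide (p.1 = p.2) :=
    Primrec.not.to_comp.comp (Primrec.eq (α := Option ℕ)).decide.to_comp
  have h4 : Computable₂ fun (q : ℕ × St) (l : ℕ) =>
      !decide (cnd d q.1 l q.2.2.1 q.2.2.2 (q.2.1.getD l dft) =
        some (Encodable.encode (q.2.1.getD (l + 1) dft).1)) := by
    have h := h3.comp (Computable.pair h1 h2)
    exact h
  have hlen : Computable fun q : ℕ × St => q.2.1.length - 1 :=
    Primrec.nat_sub.to_comp.comp
      (Computable.list_length.comp (Computable.fst.comp Computable.snd)) (Computable.const 1)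
  refine (Primrec.option_getD.to_comp.comp (bfind_comp h4 hlen) hlen).of_eq ?_
  intro q
  unfold lev
  rw [cmp_find_congr]
  intro k
  rw [Bool.eq_iff_iff]
  simp

theorem dec_comp (hB : CompStr d.B) :
    Computable fun q : (List Cfg × List Bool) × ℕ × Bool => dec d q.1.1 q.1.2 q.2.1 q.2.2 := by
  have hstk : Computable fun x : ((List Cfg × List Bool) × ℕ × Bool) × ℕ => x.1.1.1 :=
    Computable.fst.comp (Computable.fst.comp Computable.fst)
  have hsig : Computable fun x : ((List Cfg × List Bool) × ℕ × Bool) × ℕ => x.1.1.2 :=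
    Computable.snd.comp (Computable.fst.comp Computable.fst)
  have hn : Computable fun x : ((List Cfg × List Bool) × ℕ × Bool) × ℕ => x.1.2.1 :=
    Computable.fst.comp (Computable.snd.comp Computable.fst)
  have hb : Computable fun x : ((List Cfg × List Bool) × ℕ × Bool) × ℕ => x.1.2.2 :=
    Computable.snd.comp (Computable.snd.comp Computable.fst)
  have hu : Computable fun x : ((List Cfg × List Bool) × ℕ × Bool) × ℕ =>
      (x.1.1.1.getD x.2 dft).2 :=
    Computable.snd.comp ((Primrec.list_getD dft).to_comp.comp hstk Computable.snd)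
  have hl : Computable fun x : ((List Cfg × List Bool) × ℕ × Bool) × ℕ =>
      (x.1.1.1.getD x.2 dft).2.length := Computable.list_length.comp hu
  have hcs := cs_primrec.to_comp.comp (Computable.list_concat.comp hsig hb)
  have hsb : Computable fun x : ((List Cfg × List Bool) × ℕ × Bool) × ℕ =>
      x.1.2.1 + 1 - (x.1.1.1.getD x.2 dft).2.length :=
    Primrec.nat_sub.to_comp.comp (Computable.succ.comp hn) hl
  have hf0 := exs_primrec.to_comp.comp (Computable.pair hl (Computable.pair hsb hcs))
  have hf : Computable fun x : ((List Cfg × List Bool) × ℕ × Bool) × ℕ =>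
      exs (x.1.1.1.getD x.2 dft).2.length (x.1.2.1 + 1 - (x.1.1.1.getD x.2 dft).2.length)
        (cs (x.1.1.2 ++ [x.1.2.2])) := hf0
  obtain ⟨P, hP, hP'⟩ := comp_decide (ev_comp hB hf hu)
  have hP2 : Computable₂ fun (q : (List Cfg × List Bool) × ℕ × Bool) (j : ℕ) => P (q, j) :=
    hP
  have h1 := ball_comp hP2 (n := fun q => q.1.1.length)
    (Computable.list_length.comp (Computable.fst.comp Computable.fst))
  refine (Computable.cond h1 (Computable.list_concat.comp (Computable.snd.comp Computable.fst)
    (Computable.snd.comp Computable.snd)) (Computable.snd.comp Computable.fst)).of_eq ?_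
  intro q
  unfold dec
  split_ifs with h
  · have h2 : ((List.range q.1.1.length).all fun k => P (q, k)) = true := by
      rw [List.all_eq_true]
      intro j hj
      exact (hP' _).2 (h j (List.mem_range.1 hj))
    rw [h2]
    rfl
  · have h2 : ((List.range q.1.1.length).all fun k => P (q, k)) = false := by
      rw [Bool.eq_false_iff]
      intro h3
      rw [List.all_eq_true] at h3
      exact h fun j hj => (hP' _).1 (h3 j (List.mem_range.2 hj))
    rw [h2]
    rfl

/-- On the inputs which occur (`wit_spec`) the witness is found by a search; use a total search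
(`find_comp`) with the alternative that the existential statement is false or `m = 0` or `m` is
larger than the length. -/
theorem wit_comp (hB : CompStr d.B) : ∃ f : (List Bool × ℕ × ℕ × Cand) → List ℕ, Computable f ∧
    ∀ (σ : List Bool) (n m : ℕ) (x : Cand), 0 < m → m ≤ x.2.2.length →
      Ev d.B (exs m (n - m) (cs σ)) (x.2.2.take m) → f (σ, n, m, x) = wit d σ n m x := by
  -- the premise
  have hs : Computable fun q : List Bool × ℕ × ℕ × Cand => q.1 := Computable.fst
  have hn : Computable fun q : List Bool × ℕ × ℕ × Cand => q.2.1 :=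
    Computable.fst.comp Computable.snd
  have hm : Computable fun q : List Bool × ℕ × ℕ × Cand => q.2.2.1 :=
    Computable.fst.comp (Computable.snd.comp Computable.snd)
  have hx : Computable fun q : List Bool × ℕ × ℕ × Cand => q.2.2.2.2.2 :=
    Computable.snd.comp (Computable.snd.comp (Computable.snd.comp (Computable.snd.comp
      Computable.snd)))
  have hd : Computable fun q : List Bool × ℕ × ℕ × Cand => q.2.1 - q.2.2.1 :=
    Primrec.nat_sub.to_comp.comp hn hm
  have ht : Computable fun q : List Bool × ℕ × ℕ × Cand => q.2.2.2.2.2.take q.2.2.1 :=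
    Primrec.list_take.to_comp.comp hm hx
  have hcs0 := cs_primrec.to_comp.comp hs
  have hf0 := exs_primrec.to_comp.comp (Computable.pair hm (Computable.pair hd hcs0))
  have hf : Computable fun q : List Bool × ℕ × ℕ × Cand =>
      exs q.2.2.1 (q.2.1 - q.2.2.1) (cs q.1) := hf0
  obtain ⟨P1, hP1, hP1'⟩ := comp_decide (ev_comp hB hf ht)
  have hle : Computable fun q : List Bool × ℕ × ℕ × Cand =>
      decide (q.2.2.1 ≤ q.2.2.2.2.2.length) :=
    Primrec.nat_le.decide.to_comp.comp hm (Computable.list_length.comp hx)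
  have hlt : Computable fun q : List Bool × ℕ × ℕ × Cand => decide (0 < q.2.2.1) :=
    Primrec.nat_lt.decide.to_comp.comp (Computable.const 0) hm
  -- the search predicate
  have hk : Computable fun z : (List Bool × ℕ × ℕ × Cand) × ℕ => Denumerable.ofNat (List ℕ) z.2 :=
    (Primrec.ofNat (List ℕ)).to_comp.comp Computable.snd
  have hl : Computable fun z : (List Bool × ℕ × ℕ × Cand) × ℕ =>
      decide ((Denumerable.ofNat (List ℕ) z.2).length = z.1.2.1 - z.1.2.2.1) :=
    (Primrec.eq (α := ℕ)).decide.to_comp.comp (Computable.list_length.comp hk)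
      (hd.comp Computable.fst)
  have hcs1 := cs_primrec.to_comp.comp (hs.comp
    (Computable.fst (α := List Bool × ℕ × ℕ × Cand) (β := ℕ)))
  have hap : Computable fun z : (List Bool × ℕ × ℕ × Cand) × ℕ =>
      z.1.2.2.2.2.2.take z.1.2.2.1 ++ Denumerable.ofNat (List ℕ) z.2 :=
    Computable.list_append.comp (ht.comp Computable.fst) hk
  obtain ⟨P2, hP2, hP2'⟩ := comp_decide (ev_comp hB
    (f := fun z : (List Bool × ℕ × ℕ × Cand) × ℕ => cs z.1.1)
    (u := fun z : (List Bool × ℕ × ℕ × Cand) × ℕ =>
      z.1.2.2.2.2.2.take z.1.2.2.1 ++ Denumerable.ofNat (List ℕ) z.2) hcs1 hap)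
  obtain ⟨P, hPdef⟩ : ∃ P : (List Bool × ℕ × ℕ × Cand) → ℕ → Bool, P = fun q k =>
    (!(decide (0 < q.2.2.1) && (decide (q.2.2.1 ≤ q.2.2.2.2.2.length) && P1 q))) ||
      (decide ((Denumerable.ofNat (List ℕ) k).length = q.2.1 - q.2.2.1) && P2 (q, k)) := ⟨_, rfl⟩
  have hPc : Computable₂ P := by
    rw [hPdef]
    have e1 : Computable fun q : List Bool × ℕ × ℕ × Cand =>
        (decide (0 < q.2.2.1) && (decide (q.2.2.1 ≤ q.2.2.2.2.2.length) && P1 q)) :=
      Primrec.and.to_comp.comp hlt (Primrec.and.to_comp.comp hle hP1)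
    have e2 : Computable fun z : (List Bool × ℕ × ℕ × Cand) × ℕ =>
        (decide ((Denumerable.ofNat (List ℕ) z.2).length = z.1.2.1 - z.1.2.2.1) && P2 z) :=
      Primrec.and.to_comp.comp hl hP2
    have e3 := Primrec.or.to_comp.comp (Primrec.not.to_comp.comp (e1.comp
      (Computable.fst (α := List Bool × ℕ × ℕ × Cand) (β := ℕ)))) e2
    exact e3
  have hPi : ∀ (q : List Bool × ℕ × ℕ × Cand) (k : ℕ), 0 < q.2.2.1 → q.2.2.1 ≤ q.2.2.2.2.2.length →
      Ev d.B (exs q.2.2.1 (q.2.1 - q.2.2.1) (cs q.1)) (q.2.2.2.2.2.take q.2.2.1) →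
      (P q k = true ↔ ((Denumerable.ofNat (List ℕ) k).length = q.2.1 - q.2.2.1 ∧
        Ev d.B (cs q.1) (q.2.2.2.2.2.take q.2.2.1 ++ Denumerable.ofNat (List ℕ) k))) := by
    intro q k h1 h2 h3
    rw [hPdef]
    simp only [(hP1' q).2 h3, h1, h2, decide_true, Bool.and_true, Bool.not_true, Bool.false_or,
      Bool.and_eq_true, decide_eq_true_eq]
    rw [hP2']
  have hex : ∀ q, ∃ k, P q k = true := by
    intro q
    by_cases h : 0 < q.2.2.1 ∧ q.2.2.1 ≤ q.2.2.2.2.2.length ∧
        Ev d.B (exs q.2.2.1 (q.2.1 - q.2.2.1) (cs q.1)) (q.2.2.2.2.2.take q.2.2.1)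
    · obtain ⟨h1, h2, h3⟩ := h
      refine ⟨Encodable.encode (wit d q.1 q.2.1 q.2.2.1 q.2.2.2), (hPi q _ h1 h2 h3).2 ?_⟩
      rw [Denumerable.ofNat_encode]
      exact wit_spec h1 h2 h3
    · refine ⟨0, ?_⟩
      rw [hPdef]
      have h4 : (decide (0 < q.2.2.1) && (decide (q.2.2.1 ≤ q.2.2.2.2.2.length) && P1 q)) = false := by
        rw [Bool.eq_false_iff]
        intro h5
        rw [Bool.and_eq_true, Bool.and_eq_true, decide_eq_true_eq, decide_eq_true_eq, hP1'] at h5
        exact h h5
      simp only [h4, Bool.not_false, Bool.true_or]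
  refine ⟨fun q => Denumerable.ofNat (List ℕ) (Nat.find (hex q)),
    (Primrec.ofNat (List ℕ)).to_comp.comp (find_comp hPc hex), ?_⟩
  intro σ n m x h1 h2 h3
  have h4 : ∃ k, (Denumerable.ofNat (List ℕ) k).length = n - m ∧
      Ev d.B (cs σ) (x.2.2.take m ++ Denumerable.ofNat (List ℕ) k) := by
    refine ⟨Encodable.encode (wit d σ n m x), ?_⟩
    rw [Denumerable.ofNat_encode]
    exact wit_spec h1 h2 h3
  have h5 : Nat.find (hex (σ, n, m, x)) = Nat.find h4 :=
    le_antisymm (Nat.find_min' (hex (σ, n, m, x))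
      ((hPi (σ, n, m, x) _ h1 h2 h3).2 (Nat.find_spec h4)))
      (Nat.find_min' h4 ((hPi (σ, n, m, x) _ h1 h2 h3).1 (Nat.find_spec (hex (σ, n, m, x)))))
  unfold wit
  rw [dif_pos h4]
  show Denumerable.ofNat (List ℕ) (Nat.find (hex (σ, n, m, x))) = _
  rw [h5]

theorem step_comp (hB : CompStr d.B) (hg : Computable₂ d.g) :
    ∃ f : ℕ × St → St, Computable f ∧ ∀ s st, Inv d st → f (s, st) = step d s st := by
  obtain ⟨w, hw, hw'⟩ := wit_comp hB
  -- the new configuration with the computable witness
  obtain ⟨nc, hncdef⟩ : ∃ nc : (List Bool × ℕ × ℕ × Cand) → Cfg, nc = fun q =>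
    (q.2.2.2, q.2.2.2.2.2.take q.2.2.1 ++ w q ++ q.2.2.2.2.2.drop q.2.2.1) := ⟨_, rfl⟩
  have hm : Computable fun q : List Bool × ℕ × ℕ × Cand => q.2.2.1 :=
    Computable.fst.comp (Computable.snd.comp Computable.snd)
  have hcd : Computable fun q : List Bool × ℕ × ℕ × Cand => q.2.2.2 :=
    Computable.snd.comp (Computable.snd.comp Computable.snd)
  have hx : Computable fun q : List Bool × ℕ × ℕ × Cand => q.2.2.2.2.2 :=
    Computable.snd.comp (Computable.snd.comp hcd)
  have hnc : Computable nc := by
    rw [hncdef]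
    exact Computable.pair hcd (Computable.list_append.comp (Computable.list_append.comp
      (Primrec.list_take.to_comp.comp hm hx) hw) (Primrec.list_drop.to_comp.comp hm hx))
  -- push
  obtain ⟨pu, hpudef⟩ : ∃ pu : List Cfg × List Bool × ℕ × ℕ × Cand → St, pu = fun q =>
    (q.1 ++ [nc q.2], dec d (q.1 ++ [nc q.2]) q.2.1 q.2.2.1
      (decide (Ev d.B (Denumerable.ofNat Fml q.2.1.length) (nc q.2).2)), q.2.2.1 + 1) := ⟨_, rfl⟩
  have hq2 : Computable fun q : List Cfg × List Bool × ℕ × ℕ × Cand => nc q.2 :=
    hnc.comp Computable.snd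
  have hstk : Computable fun q : List Cfg × List Bool × ℕ × ℕ × Cand => q.1 ++ [nc q.2] :=
    Computable.list_concat.comp Computable.fst hq2
  have hsig : Computable fun q : List Cfg × List Bool × ℕ × ℕ × Cand => q.2.1 :=
    Computable.fst.comp Computable.snd
  have hn : Computable fun q : List Cfg × List Bool × ℕ × ℕ × Cand => q.2.2.1 :=
    Computable.fst.comp (Computable.snd.comp Computable.snd)
  have hfm := (Primrec.ofNat Fml).to_comp.comp (Computable.list_length.comp hsig)
  have hsn := Computable.snd.comp hq2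
  obtain ⟨b, hb, hb'⟩ := comp_decide (ev_comp hB
    (f := fun q : List Cfg × List Bool × ℕ × ℕ × Cand => Denumerable.ofNat Fml q.2.1.length)
    (u := fun q : List Cfg × List Bool × ℕ × ℕ × Cand => (nc q.2).2) hfm hsn)
  have hpu : Computable pu := by
    have h0 := (dec_comp hB).comp (Computable.pair (Computable.pair hstk hsig)
      (Computable.pair hn hb))
    have h1 := Computable.pair hstk (Computable.pair h0 (Computable.succ.comp hn))
    refine h1.of_eq fun q => ?_
    rw [hpudef]
    have h2 : b q = decide (Ev d.B (Denumerable.ofNat Fml q.2.1.length) (nc q.2).2) := by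
      rw [Bool.eq_iff_iff, hb', decide_eq_true_eq]
    show (q.1 ++ [nc q.2], dec d (q.1 ++ [nc q.2]) q.2.1 q.2.2.1 (b q), q.2.2.1 + 1) =
      (q.1 ++ [nc q.2], dec d (q.1 ++ [nc q.2]) q.2.1 q.2.2.1
      (decide (Ev d.B (Denumerable.ofNat Fml q.2.1.length) (nc q.2).2)), q.2.2.1 + 1)
    rw [h2]
  -- the step
  have hlev : Computable fun q : ℕ × St => lev d q.1 q.2 := lev_comp hB hg
  have hc : Computable fun q : ℕ × St => q.2.1.getD (lev d q.1 q.2) dft :=
    (Primrec.list_getD dft).to_comp.comp (Computable.fst.comp Computable.snd) hlev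
  have hsg : Computable fun q : ℕ × St => q.2.2.1 :=
    Computable.fst.comp (Computable.snd.comp Computable.snd)
  have hnn : Computable fun q : ℕ × St => q.2.2.2 :=
    Computable.snd.comp (Computable.snd.comp Computable.snd)
  have ho := (cnd_comp hB hg).comp (Computable.pair (Computable.pair
    (Computable.fst (α := ℕ) (β := St)) (Computable.pair hlev (Computable.pair hsg hnn))) hc)
  have htk : Computable fun q : ℕ × St => q.2.1.take (lev d q.1 q.2 + 1) :=
    Primrec.list_take.to_comp.comp (Computable.succ.comp hlev)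
      (Computable.fst.comp Computable.snd)
  have hnone : Computable fun q : ℕ × St =>
      ((q.2.1.take (lev d q.1 q.2 + 1), q.2.2.1, q.2.2.2) : St) :=
    Computable.pair htk (Computable.snd.comp Computable.snd)
  have hsome : Computable₂ fun (q : ℕ × St) (k : ℕ) =>
      pu (q.2.1.take (lev d q.1 q.2 + 1), q.2.2.1, q.2.2.2,
        (q.2.1.getD (lev d q.1 q.2) dft).2.length, Denumerable.ofNat Cand k) := by
    have hF := Computable.fst (α := ℕ × St) (β := ℕ)
    have hS := Computable.snd (α := ℕ × St) (β := ℕ)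
    have e1 := hpu.comp (Computable.pair (htk.comp hF) (Computable.pair (hsg.comp hF)
      (Computable.pair (hnn.comp hF) (Computable.pair
        (Computable.list_length.comp (Computable.snd.comp (hc.comp hF)))
          ((Primrec.ofNat Cand).to_comp.comp hS)))))
    exact e1
  have hcas := Computable.option_casesOn ho hnone hsome
  refine ⟨_, hcas, ?_⟩
  intro s st hI
  have hll := lev_lt (d := d) (s := s) hI.ne
  have hcm : st.1.getD (lev d s st) dft ∈ st.1 := by
    rw [List.getD_eq_getElem _ _ hll]
    exact List.getElem_mem hll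
  unfold step
  cases hcn : cnd d s (lev d s st) st.2.1 st.2.2 (st.1.getD (lev d s st) dft) with
  | none => simp only
  | some k =>
    simp only
    obtain ⟨⟨-, -, h2⟩, -, -, -, h3⟩ := test_of_cnd hcn
    have hm0 : 0 < (st.1.getD (lev d s st) dft).2.length :=
      List.length_pos_iff.2 (hI.shp _ hcm).ne
    have h4 := hw' st.2.1 st.2.2 _ (Denumerable.ofNat Cand k) hm0 (by omega) h3
    have h5 : nc (st.2.1, st.2.2, (st.1.getD (lev d s st) dft).2.length, Denumerable.ofNat Cand k) =
        newc d st.2.1 st.2.2 (st.1.getD (lev d s st) dft).2.length (Denumerable.ofNat Cand k) := by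
      rw [hncdef]
      unfold newc
      rw [← h4]
    rw [hpudef]
    unfold push
    rw [← h5]

theorem run_comp (hB : CompStr d.B) (hg : Computable₂ d.g) : Computable fun s => run d s := by
  obtain ⟨f, hf, hf'⟩ := step_comp hB hg
  have h1 : Computable fun s : ℕ => (Nat.rec (motive := fun _ => St) ([c0 d], [], 1)
      (fun k ih => f (k, ih)) s : St) :=
    Computable.nat_rec (f := fun s : ℕ => s) (g := fun _ => (([c0 d], [], 1) : St))
      (h := fun _ (q : ℕ × St) => f q) Computable.id (Computable.const _)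
      (hf.comp Computable.snd).to₂
  refine h1.of_eq fun s => ?_
  induction s with
  | zero => rfl
  | succ s ih =>
    show f (s, _) = step d s (run d s)
    rw [ih, hf' s _ (inv_run s)]

end Pool.Agent.H97.EM.Inj
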