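import Pool.Agent.H97.EM.Inj.Def

/-! Finite injury construction: correct candidates exist. -/

namespace Pool.Agent.H97.EM.Inj

open Pool.Agent.H97.EM Classical

variable {d : Dat} {N : Str} {a : ℕ → ℕ}

private theorem lift_list {a : ℕ → ℕ} (h : Function.Surjective a) (W' : List ℕ) : ∃ W : List ℕ, W.map a = W' := by
  refine ⟨W'.map (Function.surjInv h), ?_⟩
  rw [List.map_map]
  have e : a ∘ Function.surjInv h = id := by
    funext x
    exact Function.surjInv_eq h x
  rw [e, List.map_id]

theorem Shp.ne {c : Cfg} (h : Shp c) : c.2 ≠ [] := by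
  intro h0
  obtain ⟨h1, V, h2⟩ := h
  rw [h0] at h2
  have h3 := congrArg List.length h2
  simp only [List.length_append, List.length_drop, List.length_nil] at h3
  omega

theorem tcfg_init (h : Hyp d N a) : TCfg d N a 0 (c0 d) := by
  have h1 := h.init.2.1
  refine ⟨?_, ⟨?_, [], ?_⟩, ?_⟩
  · simp only [List.length_map, List.length_append, List.length_singleton] at h1
    show d.b0.length = d.bb.length
    omega
  · rfl
  · rfl
  · show TE N ((d.b0 ++ [] ++ [0]).map a) d.B (d.bb ++ [d.y])
    rw [List.append_nil]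
    exact h.init

/-- The tuple `c.2` of a correct configuration is realised in `N` by a tuple which extends
`A = c.1.2.1` and ends with `a l` (`Atomic.extend`, `TE.pick`). -/
theorem TCfg.real (h : Hyp d N a) {l : ℕ} {c : Cfg} (hc : TCfg d N a l c) :
    ∃ W : List ℕ, (c.1.2.1 ++ W ++ [l]).length = c.2.length ∧
      TE N ((c.1.2.1 ++ W ++ [l]).map a) d.B c.2 := by
  obtain ⟨⟨b, A, Y⟩, U⟩ := c
  obtain ⟨hlen, ⟨hs1, V, hs2⟩, hte⟩ := hc
  simp only at hlen hs1 hs2 hte ⊢
  have hb : (b.map a).length = d.bb.length := by rw [List.length_map, hlen]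
  have hte' : TE N (b.map a ++ (A ++ [l]).map a) d.B (d.bb ++ Y) := by
    rw [← List.map_append, ← List.append_assoc]
    exact hte
  obtain ⟨W', hW', h1⟩ := h.hat.extend hb hte' V
  obtain ⟨W, rfl⟩ := lift_list h.sur W'
  rw [List.length_map] at hW'
  refine ⟨W, ?_, ?_⟩
  · rw [hs2]
    simp only [List.length_append, List.length_take, List.length_drop, List.length_singleton, hW']
    omega
  · have h2 : TE N ((b.map a ++ A.map a) ++ [a l] ++ W.map a) d.B
        ((d.bb ++ Y.take A.length) ++ Y.drop A.length ++ V) := by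
      have e1 : (b.map a ++ A.map a) ++ [a l] = b.map a ++ (A ++ [l]).map a := by
        rw [List.map_append, List.append_assoc]
        rfl
      have e2 : (d.bb ++ Y.take A.length) ++ Y.drop A.length = d.bb ++ Y := by
        rw [List.append_assoc, List.take_append_drop]
      rw [e1, e2]
      exact h1
    have h3 := h2.swap3 (by
      simp only [List.length_append, List.length_take, List.length_map]
      omega) (by
      simp only [List.length_drop, List.length_singleton]
      omega)
    have h4 : TE N (b.map a ++ (A ++ W ++ [l]).map a) d.B (d.bb ++ U) := by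
      rw [hs2, List.map_append, List.map_append]
      simp only [List.append_assoc] at h3 ⊢
      exact h3
    exact h4.right hb (by simp)

/-- `TCfg.real` and `Cov` for the tuple `(c.1.2.1 ++ W ++ [l] ++ [l + 1]).map a`. -/
theorem exists_tcand (h : Hyp d N a) {l : ℕ} {c : Cfg} (hc : TCfg d N a l c) :
    ∃ x, TCand d N a l c x := by
  obtain ⟨W, h1, h2⟩ := hc.real h
  obtain ⟨b', Y, h3, h4, h5⟩ := h.cov ((c.1.2.1 ++ W ++ [l] ++ [l + 1]).map a)
  obtain ⟨b, rfl⟩ := lift_list h.sur b'
  rw [List.length_map] at h3 h4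
  have hc0 : 0 < c.2.length := List.length_pos_iff.2 hc.shp.ne
  have h6 : TE N ((c.1.2.1 ++ W ++ [l] ++ [l + 1]).map a) d.B Y :=
    h5.right (by rw [List.length_map, h3]) (by simp)
  have h7 := h6.take hc0
  have e1 : ((c.1.2.1 ++ W ++ [l] ++ [l + 1]).map a).take c.2.length = (c.1.2.1 ++ W ++ [l]).map a := by
    rw [← List.map_take, ← h1, List.take_left]
  rw [e1] at h7
  refine ⟨(b, c.1.2.1 ++ W ++ [l], Y), h3, h1, ?_, ?_, ?_, h7.symm.trans h2, ?_⟩
  · show Y.length = c.2.length + 1
    rw [h4, ← h1, List.length_append, List.length_singleton]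
  · show (c.1.2.1 ++ W ++ [l]).take c.1.2.1.length = c.1.2.1
    rw [List.append_assoc, List.take_left]
  · show (c.1.2.1 ++ W ++ [l]).getLast? = some l
    simp
  · show TE N ((b ++ (c.1.2.1 ++ W ++ [l]) ++ [l + 1]).map a) d.B (d.bb ++ Y)
    rw [List.append_assoc, List.map_append]
    exact h5

/-- A correct candidate gives correct configurations. -/
theorem TCand.tcfg {l : ℕ} {c : Cfg} {x : Cand} (hx : TCand d N a l c x) {U : List ℕ}
    (hU : Shp (x, U)) : TCfg d N a (l + 1) (x, U) := by
  exact ⟨hx.l1, hU, hx.te⟩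

/-- The tuple of the lower configuration in `N`. -/
theorem TCand.te_low {l : ℕ} {c : Cfg} {x : Cand} (hc : c.2 ≠ []) (hx : TCand d N a l c x) :
    TE N (x.2.1.map a) d.B c.2 := by
  have hc0 : 0 < c.2.length := List.length_pos_iff.2 hc
  have h1 : TE N (x.1.map a ++ (x.2.1 ++ [l + 1]).map a) d.B (d.bb ++ x.2.2) := by
    rw [← List.map_append, ← List.append_assoc]
    exact hx.te
  have h2 := (h1.right (by rw [List.length_map, hx.l1]) (by simp)).take hc0
  have e1 : ((x.2.1 ++ [l + 1]).map a).take c.2.length = x.2.1.map a := by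
    rw [← List.map_take, ← hx.l2, List.take_left]
  rw [e1] at h2
  exact h2.trans hx.teU

end Pool.Agent.H97.EM.Inj
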