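import Pool.Agent.H97.EM.Inj.Def

/-! Finite injury construction: the tests converge. -/

namespace Pool.Agent.H97.EM.Inj

open Pool.Agent.H97.EM Classical

variable {d : Dat} {N : Str} {a : ℕ → ℕ}

/-- The entries of `idx l x` are below `bd l x`. -/
theorem lt_bd (l : ℕ) (x : Cand) : ∀ i ∈ idx l x, i < bd l x := by
  intro i hi
  have key : ∀ (L : List ℕ), i ∈ L → i ≤ L.foldr max 0 := by
    intro L
    induction L with
    | nil => intro h; exact absurd h List.not_mem_nil
    | cons a L ih =>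
      intro h
      rw [List.foldr_cons]
      rcases List.mem_cons.1 h with h | h
      · subst h; exact le_max_left _ _
      · exact (ih h).trans (le_max_right _ _)
  unfold bd
  exact Nat.lt_succ_of_le (key _ hi)

theorem pick_range_map {n : ℕ} {I : List ℕ} (hI : ∀ i ∈ I, i < n) :
    pick ((List.range n).map a) I = I.map a := by
  unfold pick
  refine List.map_congr_left fun i hi => ?_
  have h1 : i < ((List.range n).map a).length := by
    rw [List.length_map, List.length_range]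
    exact hI i hi
  rw [List.getD_eq_getElem _ _ h1]
  simp

private theorem idx_ne (l : ℕ) (x : Cand) : idx l x ≠ [] := by
  unfold idx
  intro h
  have := congrArg List.length h
  simp at this

private theorem bd_pos (l : ℕ) (x : Cand) : 0 < bd l x := by
  unfold bd
  exact Nat.succ_pos _

private theorem nm (h : Hyp d N a) (l : ℕ) (x : Cand) : ∃ Y s₀, (∀ s, s₀ ≤ s → d.g (bd l x) s = Y) ∧
    Y.length = bd l x ∧ TE N ((idx l x).map a) d.B (Pool.Agent.H97.EM.pick Y (idx l x)) := by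
  obtain ⟨Y, hY, s₀, hs⟩ := h.g (bd l x) (bd_pos l x)
  refine ⟨Y, s₀, hs, ?_, ?_⟩
  · rw [← hY.2.1, List.length_map, List.length_range]
  · have h1 := hY.pick (idx_ne l x) (fun i hi => by
      rw [List.length_map, List.length_range]
      exact lt_bd l x i hi)
    rw [pick_range_map (lt_bd l x)] at h1
    exact h1

private theorem agr_of_te {B : Str} {s : ℕ} {u v : List ℕ} (h : TE B u B v) : Agr B s u v :=
  fun _ _ => h.2.2 _

private theorem not_agr {B : Str} {u v : List ℕ} (hu : u ≠ []) (hl : u.length = v.length)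
    (h : ¬ TE B u B v) : ∃ s₀, ∀ s, s₀ ≤ s → ¬ Agr B s u v := by
  have h1 : ¬ ∀ φ, Ev B φ u ↔ Ev B φ v := fun h2 => h ⟨hu, hl, h2⟩
  obtain ⟨φ, hφ⟩ := not_forall.1 h1
  refine ⟨Encodable.encode φ, fun s hs h2 => hφ ?_⟩
  have h3 := h2 (Encodable.encode φ) (by omega)
  rw [Denumerable.ofNat_encode] at h3
  exact h3

/-- Correct candidates pass the tests; `g (bd l x) s` is constant for large `s` and a name of
the type of `(a 0, .., a (bd l x - 1))`. -/
theorem test_of_tcand (h : Hyp d N a) {l : ℕ} {c : Cfg} {x : Cand} (hc : c.2 ≠ [])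
    (hx : TCand d N a l c x) : ∃ s₀, ∀ s, s₀ ≤ s → ∀ (σ : List Bool) (n : ℕ),
      Cns d σ n c → Test d s l σ n c x := by
  obtain ⟨Y, s₀, hs, hY, hTE⟩ := nm h l x
  refine ⟨s₀, fun s hss σ n hc' => ⟨⟨hx.l1, hx.l2, hx.l3⟩, ⟨hx.pre, hx.last⟩,
    agr_of_te hx.teU, ?_, ?_⟩⟩
  · rw [hs s hss]
    exact ⟨hY, agr_of_te (hTE.symm.trans hx.te)⟩
  · exact (hx.teU.2.2 _).2 hc'

/-- Incorrect candidates fail for all large `s`. -/
theorem not_test (h : Hyp d N a) {l : ℕ} {c : Cfg} {x : Cand} (hc : c.2 ≠ [])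
    (hx : ¬ TCand d N a l c x) : ∃ s₀, ∀ s, s₀ ≤ s → ∀ (σ : List Bool) (n : ℕ),
      ¬ Test d s l σ n c x := by
  by_cases h1 : (x.1.length = d.bb.length ∧ x.2.1.length = c.2.length ∧
      x.2.2.length = c.2.length + 1) ∧
      (x.2.1.take c.1.2.1.length = c.1.2.1 ∧ x.2.1.getLast? = some l)
  swap
  · exact ⟨0, fun s _ σ n ht => h1 ⟨ht.1, ht.2.1⟩⟩
  obtain ⟨⟨l1, l2, l3⟩, l4, l5⟩ := h1
  have hne : x.2.2.take c.2.length ≠ [] := by
    intro h0
    have h2 := congrArg List.length h0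
    rw [List.length_take, l3, List.length_nil] at h2
    have h3 : 0 < c.2.length := List.length_pos_iff.2 hc
    omega
  by_cases h2 : TE d.B (x.2.2.take c.2.length) d.B c.2
  swap
  · obtain ⟨s₀, hs⟩ := not_agr hne (by rw [List.length_take, l3]; omega) h2
    exact ⟨s₀, fun s hss σ n ht => hs s hss ht.2.2.1⟩
  obtain ⟨Y, s₁, hs₁, hY, hTE⟩ := nm h l x
  have h3 : ¬ TE d.B (Pool.Agent.H97.EM.pick Y (idx l x)) d.B (d.bb ++ x.2.2) := by
    intro h3
    exact hx ⟨l1, l2, l3, l4, l5, h2, hTE.trans h3⟩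
  obtain ⟨s₀, hs⟩ := not_agr (hTE.symm.1) (by
    unfold Pool.Agent.H97.EM.pick idx
    simp only [List.length_map, List.length_append, List.length_cons, List.length_nil]
    omega) h3
  refine ⟨max s₀ s₁, fun s hss σ n ht => hs s (by omega) ?_⟩
  have h4 := ht.2.2.2.1.2
  rw [hs₁ s (by omega)] at h4
  exact h4

end Pool.Agent.H97.EM.Inj
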