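import Pool.Agent.H97.EM.Inj.Cnd
import Pool.Agent.H97.EM.Inj.Tst

/-! Finite injury construction: the current candidate converges to a correct one. -/

namespace Pool.Agent.H97.EM.Inj

open Pool.Agent.H97.EM Classical

variable {d : Dat} {N : Str} {a : ℕ → ℕ}

/-- finitely many bounds -/
private theorem cvg_bd {P : ℕ → ℕ → Prop} (k₀ : ℕ)
    (h : ∀ k < k₀, ∃ s₀, ∀ s, s₀ ≤ s → P k s) : ∃ s₀, ∀ k < k₀, ∀ s, s₀ ≤ s → P k s := by
  induction k₀ with
  | zero => exact ⟨0, fun k hk => absurd hk (Nat.not_lt_zero k)⟩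
  | succ n ih =>
    obtain ⟨s₁, h1⟩ := ih fun k hk => h k (Nat.lt_succ_of_lt hk)
    obtain ⟨s₂, h2⟩ := h n (Nat.lt_succ_self n)
    refine ⟨max s₁ s₂, fun k hk s hs => ?_⟩
    rcases Nat.lt_succ_iff_lt_or_eq.1 hk with h3 | h3
    · exact h1 k h3 s ((le_max_left _ _).trans hs)
    · rw [h3]
      exact h2 s ((le_max_right _ _).trans hs)

/-- Take the correct candidate with the least code (`exists_tcand`, `test_of_tcand`,
`not_test` for all smaller codes). -/
theorem cnd_cvg (h : Hyp d N a) {l : ℕ} {c : Cfg} (hc : TCfg d N a l c) :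
    ∃ x, TCand d N a l c x ∧ ∃ s₀, ∀ s, s₀ ≤ s → ∀ (σ : List Bool) (n : ℕ),
      Cns d σ n c → cnd d s l σ n c = some (Encodable.encode x) := by
  have hne : c.2 ≠ [] := hc.shp.ne
  have hex : ∃ k, TCand d N a l c (Denumerable.ofNat Cand k) := by
    obtain ⟨x, hx⟩ := exists_tcand h hc
    exact ⟨Encodable.encode x, by rw [Denumerable.ofNat_encode]; exact hx⟩
  have hk := Nat.find_spec hex
  have hmin : ∀ k < Nat.find hex, ¬ TCand d N a l c (Denumerable.ofNat Cand k) :=
    fun k hk => Nat.find_min hex hk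
  generalize Nat.find hex = k₀ at hk hmin
  refine ⟨Denumerable.ofNat Cand k₀, hk, ?_⟩
  obtain ⟨s₁, h1⟩ := test_of_tcand h hne hk
  obtain ⟨s₂, h2⟩ := cvg_bd (P := fun k s => ∀ (σ : List Bool) (n : ℕ),
    ¬ Test d s l σ n c (Denumerable.ofNat Cand k)) k₀ fun k hk => not_test h hne (hmin k hk)
  refine ⟨max k₀ (max s₁ s₂), fun s hs σ n hcn => ?_⟩
  have hs0 : k₀ ≤ s := (le_max_left _ _).trans hs
  have hs1 : s₁ ≤ s := ((le_max_left _ _).trans (le_max_right _ _)).trans hs
  have hs2 : s₂ ≤ s := ((le_max_right _ _).trans (le_max_right _ _)).trans hs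
  rw [Denumerable.encode_ofNat]
  unfold cnd
  rw [List.find?_range_eq_some]
  refine ⟨?_, ?_, fun j hj => ?_⟩
  · rw [decide_eq_true_iff]
    exact h1 s hs1 σ n hcn
  · rw [List.mem_range]
    omega
  · rw [Bool.not_eq_true', decide_eq_false_iff_not]
    exact h2 j hj s hs2 σ n

/-- What is known about the current candidate. -/
theorem test_of_cnd {s l n k : ℕ} {σ : List Bool} {c : Cfg}
    (h : cnd d s l σ n c = some k) : Test d s l σ n c (Denumerable.ofNat Cand k) := by
  unfold cnd at h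
  have h1 := List.find?_some h
  exact of_decide_eq_true h1

end Pool.Agent.H97.EM.Inj
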