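import Pool.Agent.H97.EM.TE
import Pool.Agent.H97.EM.At1

/-!
Finite injury construction: `B` is a decidable model atomic over `bb`, the countable model `N` is
covered by elementary copies of `(B, bb)`, and the types of the tuples `(a 0, .., a (n-1))` of `N`
have limit computable names in `B`. We build an enumeration `e` of `N` whose diagram is
computable. Definitions.
-/

namespace Pool.Agent.H97.EM.Inj

open Pool.Agent.H97.EM Classical

/-- The data: the model `B`, the tuple `bb`, the approximations `g` to the names and the first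
configuration. -/
structure Dat where
  B : Str
  bb : List ℕ
  g : ℕ → ℕ → List ℕ
  b0 : List ℕ
  y : ℕ

/-- The hypotheses. -/
structure Hyp (d : Dat) (N : Str) (a : ℕ → ℕ) : Prop where
  bb : d.bb ≠ []
  hat : Atomic d.B d.bb
  sur : Function.Surjective a
  cov : Cov d.B d.bb N
  g : ∀ n, 0 < n → ∃ Y, TE N ((List.range n).map a) d.B Y ∧ ∃ s₀, ∀ s, s₀ ≤ s → d.g n s = Y
  init : TE N ((d.b0 ++ [0]).map a) d.B (d.bb ++ [d.y])

/-- Candidates `(b, A, Y)`: `b`, `A` are lists of indices of elements of `N`, `Y` is a tuple
of `B`. -/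
abbrev Cand := List ℕ × List ℕ × List ℕ

/-- Configurations: a candidate and a tuple `U` of `B`. -/
abbrev Cfg := Cand × List ℕ

/-- States: the stack of the configurations (the bottom first), the decisions, the number of the
variables in use. -/
abbrev St := List Cfg × List Bool × ℕ

def dft : Cfg := (([], [], []), [])

/-- The tuples `u` and `v` agree for the formulas with numbers at most `s`. -/
def Agr (B : Str) (s : ℕ) (u v : List ℕ) : Prop :=
  ∀ k < s + 1, (Ev B (Denumerable.ofNat Fml k) u ↔ Ev B (Denumerable.ofNat Fml k) v)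

/-- The indices used by a candidate at level `l`. -/
def idx (l : ℕ) (x : Cand) : List ℕ := x.1 ++ x.2.1 ++ [l + 1]

/-- All indices are smaller. -/
def bd (l : ℕ) (x : Cand) : ℕ := (idx l x).foldr max 0 + 1

/-- The test of the candidate `x` over the configuration `c` of level `l` at stage `s`. -/
def Test (d : Dat) (s l : ℕ) (σ : List Bool) (n : ℕ) (c : Cfg) (x : Cand) : Prop :=
  (x.1.length = d.bb.length ∧ x.2.1.length = c.2.length ∧ x.2.2.length = c.2.length + 1) ∧
  (x.2.1.take c.1.2.1.length = c.1.2.1 ∧ x.2.1.getLast? = some l) ∧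
  Agr d.B s (x.2.2.take c.2.length) c.2 ∧
  ((d.g (bd l x) s).length = bd l x ∧
    Agr d.B s (pick (d.g (bd l x) s) (idx l x)) (d.bb ++ x.2.2)) ∧
  Ev d.B (exs c.2.length (n - c.2.length) (cs σ)) (x.2.2.take c.2.length)

/-- The code of the current candidate. -/
noncomputable def cnd (d : Dat) (s l : ℕ) (σ : List Bool) (n : ℕ) (c : Cfg) : Option ℕ :=
  (List.range (s + 1)).find? fun k => decide (Test d s l σ n c (Denumerable.ofNat Cand k))

/-- The least level at which the stored candidate of the next level is not the current one, or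
the top level. -/
noncomputable def lev (d : Dat) (s : ℕ) (st : St) : ℕ :=
  ((List.range (st.1.length - 1)).find? fun l =>
    decide (cnd d s l st.2.1 st.2.2 (st.1.getD l dft) ≠
      some (Encodable.encode (st.1.getD (l + 1) dft).1))).getD (st.1.length - 1)

/-- The least tuple (least code) which continues `x.2.2.take m` to a solution of `cs σ`. -/
noncomputable def wit (d : Dat) (σ : List Bool) (n m : ℕ) (x : Cand) : List ℕ :=
  if h : ∃ k, (Denumerable.ofNat (List ℕ) k).length = n - m ∧
      Ev d.B (cs σ) (x.2.2.take m ++ Denumerable.ofNat (List ℕ) k)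
  then Denumerable.ofNat (List ℕ) (Nat.find h) else []

/-- The new configuration. -/
noncomputable def newc (d : Dat) (σ : List Bool) (n m : ℕ) (x : Cand) : Cfg :=
  (x, x.2.2.take m ++ wit d σ n m x ++ x.2.2.drop m)

/-- The decision `b` is accepted if it is consistent with all configurations. -/
noncomputable def dec (d : Dat) (stk : List Cfg) (σ : List Bool) (n : ℕ) (b : Bool) :
    List Bool :=
  if ∀ j < stk.length, Ev d.B (exs (stk.getD j dft).2.length
      (n + 1 - (stk.getD j dft).2.length) (cs (σ ++ [b]))) (stk.getD j dft).2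
  then σ ++ [b] else σ

/-- A new configuration is put on the stack. -/
noncomputable def push (d : Dat) (stk : List Cfg) (σ : List Bool) (n m : ℕ) (x : Cand) : St :=
  (stk ++ [newc d σ n m x],
    dec d (stk ++ [newc d σ n m x]) σ n
      (decide (Ev d.B (Denumerable.ofNat Fml σ.length) (newc d σ n m x).2)), n + 1)

/-- One step. -/
noncomputable def step (d : Dat) (s : ℕ) (st : St) : St :=
  match cnd d s (lev d s st) st.2.1 st.2.2 (st.1.getD (lev d s st) dft) with
  | none => (st.1.take (lev d s st + 1), st.2.1, st.2.2)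
  | some k => push d (st.1.take (lev d s st + 1)) st.2.1 st.2.2
      (st.1.getD (lev d s st) dft).2.length (Denumerable.ofNat Cand k)

/-- The first configuration. -/
def c0 (d : Dat) : Cfg := ((d.b0, [], [d.y]), [d.y])

/-- The run. -/
noncomputable def run (d : Dat) : ℕ → St
  | 0 => ([c0 d], [], 1)
  | s + 1 => step d s (run d s)

/-- The shape of configurations. -/
def Shp (c : Cfg) : Prop :=
  c.1.2.2.length = c.1.2.1.length + 1 ∧
    ∃ V : List ℕ, c.2 = c.1.2.2.take c.1.2.1.length ++ V ++ c.1.2.2.drop c.1.2.1.length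

/-- Correct configurations of level `l`. -/
structure TCfg (d : Dat) (N : Str) (a : ℕ → ℕ) (l : ℕ) (c : Cfg) : Prop where
  len : c.1.1.length = d.bb.length
  shp : Shp c
  te : TE N ((c.1.1 ++ c.1.2.1 ++ [l]).map a) d.B (d.bb ++ c.1.2.2)

/-- Correct candidates over the configuration `c` of level `l`. -/
structure TCand (d : Dat) (N : Str) (a : ℕ → ℕ) (l : ℕ) (c : Cfg) (x : Cand) : Prop where
  l1 : x.1.length = d.bb.length
  l2 : x.2.1.length = c.2.length
  l3 : x.2.2.length = c.2.length + 1
  pre : x.2.1.take c.1.2.1.length = c.1.2.1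
  last : x.2.1.getLast? = some l
  teU : TE d.B (x.2.2.take c.2.length) d.B c.2
  te : TE N ((x.1 ++ x.2.1 ++ [l + 1]).map a) d.B (d.bb ++ x.2.2)

/-- The decisions `σ` are consistent with the tuple of the configuration `c`. -/
def Cns (d : Dat) (σ : List Bool) (n : ℕ) (c : Cfg) : Prop :=
  Ev d.B (exs c.2.length (n - c.2.length) (cs σ)) c.2

/-- Invariants of the states. -/
structure Inv (d : Dat) (st : St) : Prop where
  ne : st.1 ≠ []
  sig : st.2.1.length < st.2.2
  shp : ∀ c ∈ st.1, Shp c
  le : ∀ c ∈ st.1, c.2.length ≤ st.2.2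
  cns : ∀ c ∈ st.1, Cns d st.2.1 st.2.2 c

end Pool.Agent.H97.EM.Inj
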