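import Pool.Agent.H97.EM.Inj.Lev

/-! Finite injury construction: all levels become final and correct. -/

namespace Pool.Agent.H97.EM.Inj

open Pool.Agent.H97.EM Classical

variable {d : Dat} {N : Str} {a : ℕ → ℕ}

/-- The stack `P` is final from stage `s₀` on, and correct. -/
structure Fnl (d : Dat) (N : Str) (a : ℕ → ℕ) (P : List Cfg) (s₀ : ℕ) : Prop where
  ne : P ≠ []
  pre : ∀ s, s₀ ≤ s → P <+: (run d s).1
  cn : ∀ s, s₀ ≤ s → ∀ j, j + 1 < P.length →
    cnd d s j (run d s).2.1 (run d s).2.2 (P.getD j dft) =
      some (Encodable.encode (P.getD (j + 1) dft).1)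
  tr : ∀ j < P.length, TCfg d N a j (P.getD j dft)
  tc : ∀ j, j + 1 < P.length → TCand d N a j (P.getD j dft) (P.getD (j + 1) dft).1

private theorem fnl_getD {P Q : List Cfg} (h : P <+: Q) {j : ℕ} (hj : j < P.length) :
    Q.getD j dft = P.getD j dft := by
  obtain ⟨R, rfl⟩ := h
  rw [List.getD_append _ _ _ _ hj]

/-- The first configuration is never removed. -/
theorem fnl_zero (h : Hyp d N a) : Fnl d N a [c0 d] 0 := by
  refine ⟨by simp, ?_, ?_, ?_, ?_⟩
  · intro s _
    induction s with
    | zero => exact List.prefix_refl _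
    | succ s ih => exact prefix_step (ih (Nat.zero_le s)) (by simp)
  · intro s _ j hj
    rw [List.length_singleton] at hj
    omega
  · intro j hj
    rw [List.length_singleton] at hj
    have h0 : j = 0 := by omega
    rw [h0]
    exact tcfg_init h
  · intro j hj
    rw [List.length_singleton] at hj
    omega

theorem Fnl.lev_le {P : List Cfg} {s₀ s : ℕ} (hP : Fnl d N a P s₀) (hs : s₀ ≤ s) :
    P.length ≤ lev d s (run d s) + 1 := by
  have h0 : 0 < P.length := List.length_pos_iff.2 hP.ne
  have h1 := hP.pre s hs
  have h2 := h1.length_le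
  have h3 : P.length - 1 ≤ lev d s (run d s) := by
    refine le_lev (by omega) fun j hj => ?_
    rw [fnl_getD h1 (by omega), fnl_getD h1 (by omega)]
    exact hP.cn s hs j (by omega)
  omega

/-- Let `x` be the limit of the candidates over the top configuration of `P` (`cnd_cvg`, the
consistency `Cns` is part of the invariants), current from stage `s₁ ≥ s₀` on. At stage
`s₁ + 1` the stack has a configuration with the candidate `x` above `P`: either it was there
already, or it is pushed at stage `s₁`, because then the active level is the top level of `P`.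
It remains forever (`le_lev`, `prefix_step`). -/
theorem fnl_succ (h : Hyp d N a) {P : List Cfg} {s₀ : ℕ} (hP : Fnl d N a P s₀) :
    ∃ c s₁, Fnl d N a (P ++ [c]) s₁ := by
  obtain ⟨l, hl⟩ : ∃ l, P.length = l + 1 :=
    ⟨P.length - 1, by have := List.length_pos_iff.2 hP.ne; omega⟩
  have htop := hP.tr l (by omega)
  obtain ⟨x, hx, s₁, hs₁⟩ := cnd_cvg h htop
  have hcur : ∀ s, s₀ ≤ s → s₁ ≤ s →
      cnd d s l (run d s).2.1 (run d s).2.2 (P.getD l dft) = some (Encodable.encode x) := by
    intro s h1 h2
    refine hs₁ s h2 _ _ ((inv_run s).cns _ ?_)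
    refine (hP.pre s h1).subset ?_
    rw [List.getD_eq_getElem _ _ (by omega : l < P.length)]
    exact List.getElem_mem _
  obtain ⟨t, ht⟩ : ∃ t, t = max s₀ s₁ := ⟨_, rfl⟩
  have ht0 : s₀ ≤ t := by omega
  have ht1 : s₁ ≤ t := by omega
  have hpre := hP.pre t ht0
  have hlev := hP.lev_le ht0
  obtain ⟨c, hc1, hc⟩ : ∃ c : Cfg, c.1 = x ∧ P ++ [c] <+: (run d (t + 1)).1 := by
    rcases Nat.lt_or_ge l (lev d t (run d t)) with h1 | h1
    · have h2 := lev_lt (d := d) (s := t) (inv_run (d := d) t).ne
      have h3 := cnd_of_lt_lev h1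
      rw [fnl_getD hpre (by omega), hcur t ht0 ht1] at h3
      have h4 := Encodable.encode_injective (Option.some.inj h3)
      obtain ⟨R, hR⟩ := hpre
      have h5 : P.length < (run d t).1.length := by omega
      have h6 : R ≠ [] := by
        rintro rfl
        rw [List.append_nil] at hR
        rw [← hR] at h5
        omega
      obtain ⟨c, R', rfl⟩ := List.exists_cons_of_ne_nil h6
      refine ⟨c, ?_, ?_⟩
      · rw [h4, ← hR, List.getD_append_right _ _ _ _ (by omega), hl, Nat.sub_self]
        rfl
      · refine prefix_step (P := P ++ [c]) ⟨R', ?_⟩ ?_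
        · rw [← hR, List.append_assoc]
          rfl
        · rw [List.length_append, List.length_singleton]
          omega
    · have h2 : lev d t (run d t) = l := by omega
      have h3 : cnd d t (lev d t (run d t)) (run d t).2.1 (run d t).2.2
          ((run d t).1.getD (lev d t (run d t)) dft) = some (Encodable.encode x) := by
        rw [h2, fnl_getD hpre (by omega)]
        exact hcur t ht0 ht1
      have h4 := step_some h3
      refine ⟨newc d (run d t).2.1 (run d t).2.2
        ((run d t).1.getD (lev d t (run d t)) dft).2.length x, rfl, ?_⟩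
      have h5 : (run d t).1.take (lev d t (run d t) + 1) = P := by
        rw [h2, ← hl]
        exact (List.prefix_iff_eq_take.1 hpre).symm
      have h6 : (run d (t + 1)).1 = P ++ [newc d (run d t).2.1 (run d t).2.2
          ((run d t).1.getD (lev d t (run d t)) dft).2.length x] := by
        show (step d t (run d t)).1 = _
        rw [h4, h5, Denumerable.ofNat_encode]
        rfl
      rw [h6]
  have hlen : (P ++ [c]).length = l + 2 := by
    rw [List.length_append, List.length_singleton, hl]
  have hg1 : ∀ j, j < l + 1 → (P ++ [c]).getD j dft = P.getD j dft := fun j hj =>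
    fnl_getD (List.prefix_append P [c]) (by omega)
  have hg2 : (P ++ [c]).getD (l + 1) dft = c := by
    rw [List.getD_append_right _ _ _ _ (by omega), hl, Nat.sub_self]
    rfl
  have hcn : ∀ s, t + 1 ≤ s → ∀ j, j + 1 < (P ++ [c]).length →
      cnd d s j (run d s).2.1 (run d s).2.2 ((P ++ [c]).getD j dft) =
        some (Encodable.encode ((P ++ [c]).getD (j + 1) dft).1) := by
    intro s hs j hj
    rw [hlen] at hj
    rcases Nat.lt_or_ge j l with h1 | h1
    · rw [hg1 j (by omega), hg1 (j + 1) (by omega)]
      exact hP.cn s (by omega) j (by omega)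
    · have h2 : j = l := by omega
      rw [h2, hg1 l (by omega), hg2, hc1]
      exact hcur s (by omega) (by omega)
  have hpr : ∀ s, t + 1 ≤ s → P ++ [c] <+: (run d s).1 := by
    intro s hs
    induction s, hs using Nat.le_induction with
    | base => exact hc
    | succ s hs ih =>
      refine prefix_step ih ?_
      have h1 := ih.length_le
      have h2 : (P ++ [c]).length - 1 ≤ lev d s (run d s) := by
        refine le_lev (by omega) fun j hj => ?_
        rw [fnl_getD ih (by omega), fnl_getD ih (by omega)]
        exact hcn s hs j (by omega)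
      omega
  have hcm : c ∈ (run d (t + 1)).1 := hc.subset (by simp)
  have hsh := (inv_run (t + 1)).shp c hcm
  refine ⟨c, t + 1, by simp, hpr, hcn, ?_, ?_⟩
  · intro j hj
    rw [hlen] at hj
    rcases Nat.lt_or_ge j (l + 1) with h1 | h1
    · rw [hg1 j h1]
      exact hP.tr j (by omega)
    · have h2 : j = l + 1 := by omega
      rw [h2, hg2]
      obtain ⟨c1, c2⟩ := c
      have h3 : c1 = x := hc1
      rw [h3] at hsh ⊢
      exact hx.tcfg hsh
  · intro j hj
    rw [hlen] at hj
    rcases Nat.lt_or_ge j l with h1 | h1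
    · rw [hg1 j (by omega), hg1 (j + 1) (by omega)]
      exact hP.tc j (by omega)
    · have h2 : j = l := by omega
      rw [h2, hg1 l (by omega), hg2, hc1]
      exact hx

theorem fnl_all (h : Hyp d N a) (l : ℕ) : ∃ P s₀, P.length = l + 1 ∧ Fnl d N a P s₀ := by
  induction l with
  | zero => exact ⟨[c0 d], 0, rfl, fnl_zero h⟩
  | succ l ih =>
    obtain ⟨P, s₀, hP1, hP2⟩ := ih
    obtain ⟨c, s₁, hc⟩ := fnl_succ h hP2
    exact ⟨P ++ [c], s₁, by rw [List.length_append, List.length_singleton, hP1], hc⟩

/-- Two final stacks are comparable. -/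
theorem Fnl.compare {P Q : List Cfg} {s₀ s₁ : ℕ} (hP : Fnl d N a P s₀) (hQ : Fnl d N a Q s₁)
    (hl : P.length ≤ Q.length) : P <+: Q :=
  List.prefix_of_prefix_length_le (hP.pre (max s₀ s₁) (le_max_left _ _))
    (hQ.pre (max s₀ s₁) (le_max_right _ _)) hl

end Pool.Agent.H97.EM.Inj
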