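import Pool.Agent.H97.EM.Inj.Fnl
import Pool.Agent.H97.EM.Inj.Chk

/-! Finite injury construction: every formula is decided. -/

namespace Pool.Agent.H97.EM.Inj

open Pool.Agent.H97.EM Classical

variable {d : Dat} {N : Str} {a : ℕ → ℕ}

private theorem cs_snoc {B : Str} {σ : List Bool} {b : Bool} {v : List ℕ} (h1 : Ev B (cs σ) v)
    (h2 : b = true ↔ Ev B (Denumerable.ofNat Fml σ.length) v) : Ev B (cs (σ ++ [b])) v := by
  unfold Ev at h1 h2 ⊢
  rw [sat_cs] at h1 ⊢
  intro c hc
  rw [List.length_append, List.length_singleton] at hc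
  rcases Nat.lt_or_ge c σ.length with h3 | h3
  · rw [List.getD_append _ _ _ _ h3]
    exact h1 c h3
  · have h4 : c = σ.length := by omega
    rw [h4, List.getD_append_right _ _ _ _ (le_refl _), Nat.sub_self]
    exact h2

/-- Given `s₀` let `l + 1` be the length of the stack at stage `s₀` (or more) and let
`Fnl P s₁`, `P.length = l + 2`. The active level is at most `l` at stage `s₀` and at least
`l + 1` from `s₁` on; let `t ≥ s₀` be the last stage at which it is at most `l`. Then it is `l`,
a configuration is pushed at stage `t`, and the stack of stage `t + 1` is never changed up to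
level `l + 1`, so it is `P`. By `chk` (with `θ = cs (σ ++ [b])`, which holds at the new tuple by
`newc_spec` and the choice of `b`) the decision is accepted. -/
theorem grow (h : Hyp d N a) (s₀ : ℕ) : ∃ t, s₀ ≤ t ∧
    (run d (t + 1)).2.1.length = (run d t).2.1.length + 1 := by
  obtain ⟨l, hl⟩ : ∃ l, (run d s₀).1.length = l + 1 :=
    ⟨(run d s₀).1.length - 1, by
      have := List.length_pos_iff.2 (inv_run (d := d) s₀).ne
      omega⟩
  obtain ⟨P, s₁, hP1, hP2⟩ := fnl_all h (l + 1)
  have hL0 : lev d s₀ (run d s₀) ≤ l := by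
    have := lev_lt (d := d) (s := s₀) (inv_run (d := d) s₀).ne
    omega
  have hL1 : ∀ s, s₁ ≤ s → l + 1 ≤ lev d s (run d s) := by
    intro s hs
    have := hP2.lev_le hs
    omega
  -- the last stage
  obtain ⟨t, ht0, ht1, ht2⟩ : ∃ t, s₀ ≤ t ∧ lev d t (run d t) ≤ l ∧
      ∀ s, t < s → l + 1 ≤ lev d s (run d s) := by
    have hex : ∃ m, ∀ s, m ≤ s → l + 1 ≤ lev d s (run d s) := ⟨s₁, hL1⟩
    obtain ⟨m, hm⟩ : ∃ m, m = Nat.find hex := ⟨_, rfl⟩
    have hm1 : ∀ s, m ≤ s → l + 1 ≤ lev d s (run d s) := by
      rw [hm]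
      exact Nat.find_spec hex
    have hm2 : s₀ < m := by
      by_contra h1
      have := hm1 s₀ (by omega)
      omega
    refine ⟨m - 1, by omega, ?_, fun s hs => hm1 s (by omega)⟩
    by_contra h1
    have h2 : ¬ ∀ s, m - 1 ≤ s → l + 1 ≤ lev d s (run d s) :=
      Nat.find_min hex (by omega)
    apply h2
    intro s hs
    rcases Nat.lt_or_ge s m with h3 | h3
    · have h4 : s = m - 1 := by omega
      rw [h4]
      omega
    · exact hm1 s h3
  obtain ⟨st, hst⟩ : ∃ st, run d t = st := ⟨_, rfl⟩
  have hrun : run d (t + 1) = step d t st := by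
    rw [← hst]
    rfl
  have hinv : Inv d st := hst ▸ inv_run t
  rw [hst] at ht1
  have hlen1 : (step d t st).1.length ≤ lev d t st + 2 := length_step_le
  have hlen2 : l + 1 < (step d t st).1.length := by
    have h1 := ht2 (t + 1) (Nat.lt_succ_self t)
    have h2 := lev_lt (d := d) (s := t + 1) (inv_run (d := d) (t + 1)).ne
    rw [hrun] at h1 h2
    omega
  have hlev : lev d t st = l := by omega
  have hcm : st.1.getD (lev d t st) dft ∈ st.1 := by
    have h1 := lev_lt (d := d) (s := t) hinv.ne
    rw [List.getD_eq_getElem _ _ h1]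
    exact List.getElem_mem h1
  rcases hk : cnd d t (lev d t st) st.2.1 st.2.2 (st.1.getD (lev d t st) dft) with _ | k
  · exfalso
    rw [step_none hk] at hlen2
    have h1 : (st.1.take (lev d t st + 1)).length ≤ lev d t st + 1 := List.length_take_le _ _
    have h2 : l + 1 < (st.1.take (lev d t st + 1)).length := hlen2
    omega
  · have hT := test_of_cnd hk
    obtain ⟨n1, n2, n3⟩ := newc_spec (hinv.shp _ hcm).ne (hinv.le _ hcm) hinv.sig hT
    have hstep := step_some hk
    obtain ⟨nc, hnc⟩ : ∃ nc, newc d st.2.1 st.2.2 (st.1.getD (lev d t st) dft).2.length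
      (Denumerable.ofNat Cand k) = nc := ⟨_, rfl⟩
    unfold push at hstep
    rw [hnc] at hstep n1 n2 n3
    obtain ⟨b, hb⟩ : ∃ b, decide (Ev d.B (Denumerable.ofNat Fml st.2.1.length) nc.2) = b :=
      ⟨_, rfl⟩
    rw [hb] at hstep
    obtain ⟨Q, hQ⟩ : ∃ Q, st.1.take (lev d t st + 1) ++ [nc] = Q := ⟨_, rfl⟩
    rw [hQ] at hstep
    rw [hstep] at hlen1 hlen2 hrun
    have hQl : Q.length = l + 2 := by
      have h1 : Q.length ≤ lev d t st + 2 := hlen1
      have h2 : l + 1 < Q.length := hlen2
      omega
    have hQpre : ∀ s, t + 1 ≤ s → Q <+: (run d s).1 := by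
      intro s hs
      induction s, hs using Nat.le_induction with
      | base =>
        rw [hrun]
      | succ s hs ih =>
        refine prefix_step ih ?_
        have := ht2 s (by omega)
        omega
    have hPQ : Q = P := by
      obtain ⟨u, hu⟩ : ∃ u, u = max s₁ (t + 1) := ⟨_, rfl⟩
      have h1 := hQpre u (by omega)
      have h2 := hP2.pre u (by omega)
      exact (List.prefix_of_prefix_length_le h1 h2 (by omega)).eq_of_length (by omega)
    have hlast : Q.getD (Q.length - 1) dft = nc := by
      have h1 : (st.1.take (lev d t st + 1)).length = l + 1 := by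
        have h2 := congrArg List.length hQ
        rw [List.length_append, List.length_singleton] at h2
        omega
      rw [hQl, ← hQ, List.getD_append_right _ _ _ _ (by omega), h1]
      have h3 : l + 2 - 1 - (l + 1) = 0 := by omega
      rw [h3]
      rfl
    have hθ : Ev d.B (cs (st.2.1 ++ [b])) nc.2 := by
      refine cs_snoc n3 ?_
      rw [← hb]
      exact decide_eq_true_iff
    have hchk := chk h (P := Q) (by rw [hPQ]; exact hP2.ne) (by rw [hPQ]; exact hP2.tr)
      (by rw [hPQ]; exact hP2.tc) (cs (st.2.1 ++ [b])) (by rw [hlast]; exact hθ)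
    rw [hlast, n2] at hchk
    refine ⟨t, ht0, ?_⟩
    rw [hst, hrun]
    show (dec d Q st.2.1 st.2.2 b).length = st.2.1.length + 1
    unfold dec
    rw [if_pos hchk, List.length_append, List.length_singleton]

theorem sig_unbounded (h : Hyp d N a) (n : ℕ) : ∃ s, n ≤ (run d s).2.1.length := by
  induction n with
  | zero => exact ⟨0, Nat.zero_le _⟩
  | succ n ih =>
    obtain ⟨s, hs⟩ := ih
    obtain ⟨t, ht1, ht2⟩ := grow h s
    refine ⟨t + 1, ?_⟩
    have h1 := (sig_prefix (d := d) ht1).length_le
    omega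

end Pool.Agent.H97.EM.Inj
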