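import Pool.Agent.H97.EM.Inj.Ivr

/-! Finite injury construction: the active level. -/

namespace Pool.Agent.H97.EM.Inj

open Pool.Agent.H97.EM Classical

variable {d : Dat} {s : ℕ} {st : St}

private theorem lev_cases :
    (lev d s st = st.1.length - 1 ∧ ∀ j < st.1.length - 1,
      cnd d s j st.2.1 st.2.2 (st.1.getD j dft) = some (Encodable.encode (st.1.getD (j + 1) dft).1)) ∨
    (lev d s st < st.1.length - 1 ∧ (∀ j < lev d s st,
      cnd d s j st.2.1 st.2.2 (st.1.getD j dft) = some (Encodable.encode (st.1.getD (j + 1) dft).1)) ∧
      cnd d s (lev d s st) st.2.1 st.2.2 (st.1.getD (lev d s st) dft) ≠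
        some (Encodable.encode (st.1.getD (lev d s st + 1) dft).1)) := by
  rcases h : (List.range (st.1.length - 1)).find? fun l =>
    decide (cnd d s l st.2.1 st.2.2 (st.1.getD l dft) ≠
      some (Encodable.encode (st.1.getD (l + 1) dft).1)) with _ | i
  · left
    have h1 : lev d s st = st.1.length - 1 := by
      unfold lev
      rw [h]
      rfl
    refine ⟨h1, fun j hj => ?_⟩
    rw [List.find?_range_eq_none] at h
    have h2 := h j hj
    by_contra h3
    rw [decide_eq_true h3] at h2
    exact Bool.noConfusion h2
  · right
    have h1 : lev d s st = i := by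
      unfold lev
      rw [h]
      rfl
    rw [List.find?_range_eq_some] at h
    obtain ⟨h2, h3, h4⟩ := h
    rw [h1]
    refine ⟨List.mem_range.1 h3, fun j hj => ?_, ?_⟩
    · have h5 := h4 j hj
      by_contra h6
      rw [decide_eq_true h6] at h5
      exact Bool.noConfusion h5
    · exact of_decide_eq_true h2

/-- If the stored candidates are current below level `l` then the active level is at least
`l`. -/
theorem le_lev {l : ℕ} (hl : l < st.1.length)
    (h : ∀ j < l, cnd d s j st.2.1 st.2.2 (st.1.getD j dft) =
      some (Encodable.encode (st.1.getD (j + 1) dft).1)) : l ≤ lev d s st := by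
  rcases lev_cases (d := d) (s := s) (st := st) with ⟨h1, _⟩ | ⟨_, _, h2⟩
  · omega
  · by_contra h3
    exact h2 (h _ (not_le.1 h3))

/-- Below the active level the stored candidates are current. -/
theorem cnd_of_lt_lev {l : ℕ} (hl : l < lev d s st) :
    cnd d s l st.2.1 st.2.2 (st.1.getD l dft) =
      some (Encodable.encode (st.1.getD (l + 1) dft).1) := by
  rcases lev_cases (d := d) (s := s) (st := st) with ⟨h1, h2⟩ | ⟨_, h2, _⟩
  · exact h2 l (h1 ▸ hl)
  · exact h2 l hl

/-- At the active level, if it is not the top level, the stored candidate is not current. -/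
theorem cnd_lev (hl : lev d s st + 1 < st.1.length) :
    cnd d s (lev d s st) st.2.1 st.2.2 (st.1.getD (lev d s st) dft) ≠
      some (Encodable.encode (st.1.getD (lev d s st + 1) dft).1) := by
  rcases lev_cases (d := d) (s := s) (st := st) with ⟨h1, _⟩ | ⟨_, _, h2⟩
  · omega
  · exact h2

theorem step_none (h : cnd d s (lev d s st) st.2.1 st.2.2 (st.1.getD (lev d s st) dft) = none) :
    step d s st = (st.1.take (lev d s st + 1), st.2.1, st.2.2) := by
  unfold step
  rw [h]

theorem step_some {k : ℕ}
    (h : cnd d s (lev d s st) st.2.1 st.2.2 (st.1.getD (lev d s st) dft) = some k) :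
    step d s st = push d (st.1.take (lev d s st + 1)) st.2.1 st.2.2
      (st.1.getD (lev d s st) dft).2.length (Denumerable.ofNat Cand k) := by
  unfold step
  rw [h]

/-- The stack is kept up to the active level. -/
theorem prefix_step {P : List Cfg} (hP : P <+: st.1) (hl : P.length ≤ lev d s st + 1) :
    P <+: (step d s st).1 := by
  have h1 : P <+: st.1.take (lev d s st + 1) := List.prefix_take_iff.2 ⟨hP, hl⟩
  rcases h : cnd d s (lev d s st) st.2.1 st.2.2 (st.1.getD (lev d s st) dft) with _ | k
  · rw [step_none h]
    exact h1
  · rw [step_some h]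
    exact h1.trans (List.prefix_append _ _)

theorem length_step_le : (step d s st).1.length ≤ lev d s st + 2 := by
  rcases h : cnd d s (lev d s st) st.2.1 st.2.2 (st.1.getD (lev d s st) dft) with _ | k
  · rw [step_none h]
    exact (List.length_take_le _ _).trans (Nat.le_succ _)
  · rw [step_some h]
    show (st.1.take (lev d s st + 1) ++ [_]).length ≤ lev d s st + 2
    rw [List.length_append, List.length_singleton]
    exact Nat.succ_le_succ (List.length_take_le _ _)

end Pool.Agent.H97.EM.Inj
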