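import Pool.Agent.H97.EM.Inj.Map
import Pool.Agent.H97.EM.Inj.Cmp2
import Pool.Agent.H97.EM.Enu

/-! Finite injury construction: the theorem. -/

namespace Pool.Agent.H97.EM

open Inj in
/-- Search for a stage with a long decision list. -/
theorem Inj.gam_comp {d : Dat} {N : Str} {a : ℕ → ℕ} (h : Hyp d N a) (hB : CompStr d.B)
    (hg : Computable₂ d.g) : ComputablePred fun φ => φ ∈ Gam d := by
  have hr : Computable fun s : ℕ => (run d s).2.1 :=
    Computable.fst.comp (Computable.snd.comp (run_comp hB hg))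
  have hP : Computable₂ fun (φ : Fml) (s : ℕ) =>
      decide (Encodable.encode φ < (run d s).2.1.length) := by
    have h1 : Computable fun p : ℕ × ℕ => decide (p.1 < p.2) :=
      (Primrec.nat_lt).decide.to_comp
    exact h1.comp ((Computable.encode.comp Computable.fst).pair
      (Computable.list_length.comp (hr.comp Computable.snd)))
  have hex : ∀ φ : Fml, ∃ s, decide (Encodable.encode φ < (run d s).2.1.length) = true := by
    intro φ
    obtain ⟨s, hs⟩ := sig_unbounded h (Encodable.encode φ + 1)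
    exact ⟨s, decide_eq_true hs⟩
  have hfind := find_comp hP hex
  have hv : Computable fun φ : Fml =>
      (run d (Nat.find (hex φ))).2.1.getD (Encodable.encode φ) false :=
    (Primrec.list_getD false).to_comp.comp (hr.comp hfind) Computable.encode
  refine compPred_of hv fun φ => ?_
  have hs := Nat.find_spec (hex φ)
  rw [decide_eq_true_iff] at hs
  constructor
  · intro h1
    exact ⟨_, hs, h1⟩
  · rintro ⟨s', h5, h6⟩
    rcases Nat.le_total (Nat.find (hex φ)) s' with h7 | h7
    · obtain ⟨R, hR⟩ := sig_prefix (d := d) h7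
      rw [← hR, List.getD_append _ _ _ _ hs] at h6
      exact h6
    · obtain ⟨R, hR⟩ := sig_prefix (d := d) h7
      rw [← hR, List.getD_append _ _ _ _ h5]
      exact h6

open Inj in
theorem main_inj {B N : Str} {bb : List ℕ} (hbb : bb ≠ []) (hB : CompStr B)
    (hat : Atomic B bb) (hcov : Cov B bb N) {a : ℕ → ℕ} (ha : Function.Surjective a)
    {g : ℕ → ℕ → List ℕ} (hg : Computable₂ g)
    (hY : ∀ n, 0 < n → ∃ Y, TE N ((List.range n).map a) B Y ∧ ∃ s₀, ∀ s, s₀ ≤ s → g n s = Y) :
    ∃ N', Iso N N' ∧ CompStr N' := by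
  obtain ⟨b, Y, hb, hYl, hTE⟩ := hcov [a 0]
  obtain ⟨b0, hb0⟩ : ∃ b0 : List ℕ, b0.map a = b := by
    choose r hr using ha
    refine ⟨b.map r, ?_⟩
    rw [List.map_map]
    have h1 : a ∘ r = id := funext fun x => hr x
    rw [h1, List.map_id]
  obtain ⟨y, rfl⟩ : ∃ y, Y = [y] := List.length_eq_one_iff.1 hYl
  have h : Hyp ⟨B, bb, g, b0, y⟩ N a := by
    refine ⟨hbb, hat, ha, hcov, hY, ?_⟩
    show TE N ((b0 ++ [0]).map a) B (bb ++ [y])
    rw [List.map_append, hb0]
    exact hTE
  obtain ⟨e, he, hφ⟩ := exists_e h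
  have h1 := Inj.gam_comp h hB hg
  refine enum_dec he ?_
  obtain ⟨f, hf, hff⟩ := comp_decide h1
  exact compPred_of hf fun φ => (hff φ).trans (hφ φ)

end Pool.Agent.H97.EM
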