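import Pool.Agent.H97.EM.Inj.Grw

/-! Finite injury construction: the enumeration of `N`. -/

namespace Pool.Agent.H97.EM.Inj

open Pool.Agent.H97.EM Classical

variable {d : Dat} {N : Str} {a : ℕ → ℕ}

/-- The formulas decided positively. -/
def Gam (d : Dat) : Set Fml :=
  {φ | ∃ s, Encodable.encode φ < (run d s).2.1.length ∧
    (run d s).2.1.getD (Encodable.encode φ) false = true}

/-- The index tuples of the final configurations: `A l` is the index part of the final candidate
over level `l` and realises in `N` the type of the final tuple of level `l`. -/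
theorem exists_A (h : Hyp d N a) : ∃ A : ℕ → List ℕ,
    (∀ l, l < (A l).length) ∧ (∀ l, (A (l + 1)).take (A l).length = A l) ∧
    (∀ l, (A l).getLast? = some l) ∧
    (∀ l, ∃ U : List ℕ, TE N ((A l).map a) d.B U ∧
      ∃ s₀, ∀ s, s₀ ≤ s → ∃ w : List ℕ, Ev d.B (cs (run d s).2.1) (U ++ w)) := by
  choose P s₁ hP1 hP2 using fnl_all h
  obtain ⟨C, hC⟩ : ∃ C : ℕ → Cfg, C = fun l => (P l).getD l dft := ⟨_, rfl⟩
  have hget : ∀ l j, j ≤ l → (P l).getD j dft = C j := by
    intro l j hj
    obtain ⟨R, hR⟩ := Fnl.compare (hP2 j) (hP2 l) (by rw [hP1, hP1]; omega)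
    rw [hC, ← hR, List.getD_append _ _ _ _ (by rw [hP1]; omega)]
  have htr : ∀ l, TCfg d N a l (C l) := by
    intro l
    have h1 := (hP2 l).tr l (by rw [hP1]; omega)
    rw [hget l l le_rfl] at h1
    exact h1
  have htc : ∀ l, TCand d N a l (C l) (C (l + 1)).1 := by
    intro l
    have h1 := (hP2 (l + 1)).tc l (by rw [hP1]; omega)
    rw [hget (l + 1) l (by omega), hget (l + 1) (l + 1) le_rfl] at h1
    exact h1
  have hlt : ∀ l, l < (C l).2.length := by
    intro l
    induction l with
    | zero => exact List.length_pos_iff.2 (htr 0).shp.ne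
    | succ l ih =>
      obtain ⟨h1, V, hV⟩ := (htr (l + 1)).shp
      have h2 := congrArg List.length hV
      have h3 := (htc l).l2
      rw [List.length_append, List.length_append, List.length_take, List.length_drop] at h2
      omega
  refine ⟨fun l => (C (l + 1)).1.2.1, ?_, ?_, ?_, ?_⟩
  · intro l
    have h1 := (htc l).l2
    have h2 := hlt l
    show l < (C (l + 1)).1.2.1.length
    omega
  · intro l
    exact (htc (l + 1)).pre
  · intro l
    exact (htc l).last
  · intro l
    refine ⟨(C l).2, (htc l).te_low (htr l).shp.ne, s₁ l, fun s hs => ?_⟩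
    have hm : C l ∈ (run d s).1 := by
      refine ((hP2 l).pre s hs).subset ?_
      rw [← hget l l le_rfl, List.getD_eq_getElem _ _ (by rw [hP1]; omega : l < (P l).length)]
      exact List.getElem_mem _
    have h1 := (inv_run s).cns _ hm
    unfold Cns at h1
    rw [ev_exs _ _ (htr l).shp.ne] at h1
    obtain ⟨w, -, hw⟩ := h1
    exact ⟨w, hw⟩

/-- `e i := a ((A i).getD i 0)`; then `e i = a ((A l).getD i 0)` for all `l` with
`i < (A l).length`. -/
theorem exists_e (h : Hyp d N a) : ∃ e : ℕ → ℕ, Function.Surjective e ∧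
    ∀ φ, φ ∈ Gam d ↔ Sat N φ e := by
  obtain ⟨A, hA1, hA2, hA3, hA4⟩ := exists_A h
  have hpre : ∀ l k, A l <+: A (l + k) := by
    intro l k
    induction k with
    | zero => exact List.prefix_refl _
    | succ k ih =>
      refine ih.trans ?_
      have h1 := hA2 (l + k)
      rw [← Nat.add_assoc]
      conv_lhs => rw [← h1]
      exact List.take_prefix _ _
  have hget : ∀ l k i, l ≤ k → i < (A l).length → (A k).getD i 0 = (A l).getD i 0 := by
    intro l k i hlk hi
    obtain ⟨r, rfl⟩ := Nat.exists_eq_add_of_le hlk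
    obtain ⟨R, hR⟩ := hpre l r
    rw [← hR, List.getD_append _ _ _ _ hi]
  obtain ⟨e, he⟩ : ∃ e : ℕ → ℕ, e = fun i => a ((A i).getD i 0) := ⟨_, rfl⟩
  have heA : ∀ l i, i < (A l).length → e i = a ((A l).getD i 0) := by
    intro l i hi
    rw [he]
    show a ((A i).getD i 0) = a ((A l).getD i 0)
    rcases Nat.le_total l i with h1 | h1
    · rw [hget l i i h1 hi]
    · rw [hget i l i h1 (hA1 i)]
  refine ⟨e, ?_, ?_⟩
  · intro y
    obtain ⟨l, rfl⟩ := h.sur y
    refine ⟨(A l).length - 1, ?_⟩
    have h1 := hA1 l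
    have h2 : (A l).length - 1 < (A l).length := by omega
    rw [heA l _ h2]
    have h3 := hA3 l
    rw [List.getLast?_eq_getElem?, List.getElem?_eq_getElem h2] at h3
    rw [List.getD_eq_getElem _ _ h2, Option.some.inj h3]
  · intro φ
    obtain ⟨c, hc⟩ : ∃ c, c = Encodable.encode φ := ⟨_, rfl⟩
    obtain ⟨U, hU, s₀, hs₀⟩ := hA4 c
    obtain ⟨s₂, hs₂⟩ := sig_unbounded h (c + 1)
    obtain ⟨s, hs⟩ : ∃ s, s = max s₀ s₂ := ⟨_, rfl⟩
    obtain ⟨w, hw⟩ := hs₀ s (by omega)
    have hcs : c < (run d s).2.1.length := by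
      have h1 := (sig_prefix (d := d) (show s₂ ≤ s by omega)).length_le
      omega
    have hUl : c < U.length := by
      have h1 := hU.2.1
      rw [List.length_map] at h1
      have h2 := hA1 c
      omega
    have hfv : ∀ i ∈ φ.fv, i < U.length := by
      intro i hi
      have h1 := fv_le φ i hi
      omega
    -- the decision at stage s
    have h1 : (run d s).2.1.getD c false = true ↔ Sat d.B φ (ext (U ++ w)) := by
      have h2 := (sat_cs d.B _ _).1 hw c hcs
      rw [hc, Denumerable.ofNat_encode] at h2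
      rw [hc]
      exact h2
    have h2 : Sat d.B φ (ext (U ++ w)) ↔ Sat d.B φ (ext U) := by
      refine sat_congr d.B φ _ _ fun i hi => ?_
      have h3 := hfv i hi
      unfold ext
      rw [List.getD_append _ _ _ _ h3, List.getD_eq_getElem _ _ h3, List.getD_eq_getElem _ _ h3]
    have h3 : Sat d.B φ (ext U) ↔ Ev N φ ((A c).map a) := (hU.2.2 φ).symm
    have h4 : Ev N φ ((A c).map a) ↔ Sat N φ e := by
      refine ev_of_sat ?_ ?_
      · intro i hi
        have h5 : i < (A c).length := by
          rw [List.length_map] at hi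
          exact hi
        rw [heA c i h5, List.getD_eq_getElem _ _ h5, List.getD_eq_getElem _ _ hi,
          List.getElem_map]
      · intro i hi
        rw [hU.2.1]
        exact hfv i hi
    rw [← h4, ← h3, ← h2, ← h1]
    constructor
    · rintro ⟨s', h5, h6⟩
      rw [← hc] at h5 h6
      rcases Nat.le_total s s' with h7 | h7
      · obtain ⟨R, hR⟩ := sig_prefix (d := d) h7
        rw [← hR, List.getD_append _ _ _ _ hcs] at h6
        exact h6
      · obtain ⟨R, hR⟩ := sig_prefix (d := d) h7
        rw [← hR, List.getD_append _ _ _ _ h5]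
        exact h6
    · intro h5
      refine ⟨s, ?_, ?_⟩
      · rw [← hc]
        exact hcs
      · rw [← hc]
        exact h5

end Pool.Agent.H97.EM.Inj
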